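import Pool.Agent.R229.FR.Defs

set_option autoImplicit false

/-! Statements of the parts (project FR, MP_39c6f6_co). -/

namespace Pool.Agent.R229.FR

/-- A1: in a 5-regular graph an odd set has an odd cut. -/
def StmtA1 : Prop := ∀ (V : Type) [Fintype V] (G : SimpleGraph V),
  (∀ v, (G.neighborSet v).ncard = 5) → ∀ C : Set V, Odd C.ncard → Odd (cut G C)

/-- A2: distinct minimal odd sets with one outgoing edge are disjoint. -/
def StmtA2 : Prop := ∀ (V : Type) [Fintype V] (G : SimpleGraph V),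
  (∀ v, (G.neighborSet v).ncard = 5) →
  ∀ C D : Set V, MinOne G C → MinOne G D → C ≠ D → Disjoint C D

/-- A3: every odd set with one outgoing edge contains a minimal one. -/
def StmtA3 : Prop := ∀ (V : Type) [Fintype V] (G : SimpleGraph V) (C : Set V),
  Odd C.ncard → cut G C = 1 → ∃ D, D ⊆ C ∧ MinOne G D

/-- B: the augmented graph has a perfect matching, if there are no three pairwise disjoint odd sets
with exactly three outgoing edges.  (May use A1, A3 as hypotheses.) -/
def StmtB : Prop := ∀ (V : Type) [Fintype V] (G : SimpleGraph V),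
  (∀ v, (G.neighborSet v).ncard = 5) →
  (∀ C₁ C₂ C₃ : Set V, Odd C₁.ncard → Odd C₂.ncard → Odd C₃.ncard →
    Disjoint C₁ C₂ → Disjoint C₁ C₃ → Disjoint C₂ C₃ →
    ¬ (cut G C₁ = 3 ∧ cut G C₂ = 3 ∧ cut G C₃ = 3)) →
  (∀ C : Set V, Odd C.ncard → Odd (cut G C)) →
  (∀ C : Set V, Odd C.ncard → cut G C = 1 → ∃ D, D ⊆ C ∧ MinOne G D) →
  ∃ f : V → V, ∀ v, (aug G).Adj v (f v) ∧ f (f v) = v

end Pool.Agent.R229.FR
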