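import Mathlib
import Pool.Agent.R229.FR.Stm

set_option autoImplicit false

/-! FR-A (MP_39c6f6_co): cut lemmas. helper634. -/

namespace Pool.Agent.R229.FR

open Finset

namespace AAux

open Classical in
lemma cut_eq {V : Type} [Fintype V] (G : SimpleGraph V) (C : Set V) :
    cut G C = ∑ v, ∑ w, if v ∈ C ∧ w ∉ C ∧ G.Adj v w then 1 else 0 := by
  have h : {p : V × V | p.1 ∈ C ∧ p.2 ∉ C ∧ G.Adj p.1 p.2} =
      (((univ : Finset (V × V)).filter (fun p => p.1 ∈ C ∧ p.2 ∉ C ∧ G.Adj p.1 p.2) :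
        Finset (V × V)) : Set (V × V)) := by
    ext p; simp
  unfold cut
  rw [h, Set.ncard_coe_finset, Finset.card_filter, ← Finset.univ_product_univ, Finset.sum_product]

lemma cut_compl {V : Type} [Fintype V] (G : SimpleGraph V) (C : Set V) :
    cut G Cᶜ = cut G C := by
  classical
  rw [cut_eq, cut_eq, Finset.sum_comm]
  apply Finset.sum_congr rfl
  intro v _
  apply Finset.sum_congr rfl
  intro w _
  have : (w ∈ Cᶜ ∧ v ∉ Cᶜ ∧ G.Adj w v) ↔ (v ∈ C ∧ w ∉ C ∧ G.Adj v w) := by
    simp only [Set.mem_compl_iff, not_not]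
    constructor
    · rintro ⟨h1, h2, h3⟩; exact ⟨h2, h1, h3.symm⟩
    · rintro ⟨h1, h2, h3⟩; exact ⟨h2, h1, h3.symm⟩
  simp only [this]

lemma submod {V : Type} [Fintype V] (G : SimpleGraph V) (C D : Set V) :
    cut G (C ∩ D) + cut G (C ∪ D) ≤ cut G C + cut G D := by
  classical
  rw [cut_eq, cut_eq, cut_eq, cut_eq, ← Finset.sum_add_distrib, ← Finset.sum_add_distrib]
  apply Finset.sum_le_sum
  intro v _
  rw [← Finset.sum_add_distrib, ← Finset.sum_add_distrib]
  apply Finset.sum_le_sum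
  intro w _
  simp only [Set.mem_inter_iff, Set.mem_union]
  by_cases h1 : v ∈ C <;> by_cases h2 : v ∈ D <;> by_cases h3 : w ∈ C <;> by_cases h4 : w ∈ D <;>
    by_cases h5 : G.Adj v w <;> simp [h1, h2, h3, h4, h5]

lemma submod2 {V : Type} [Fintype V] (G : SimpleGraph V) (C D : Set V) :
    cut G (C \ D) + cut G (D \ C) ≤ cut G C + cut G D := by
  have h1 := submod G C Dᶜ
  rw [cut_compl G D] at h1
  have h2 : cut G (C ∪ Dᶜ) = cut G (D \ C) := by
    rw [← cut_compl G (C ∪ Dᶜ)]
    congr 1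
    ext x
    simp only [Set.mem_compl_iff, Set.mem_union, Set.mem_diff]
    tauto
  rw [h2] at h1
  exact h1

/-- the edges inside `C` -/
def inG {V : Type} (G : SimpleGraph V) (C : Set V) : SimpleGraph V where
  Adj u v := G.Adj u v ∧ u ∈ C ∧ v ∈ C
  symm := ⟨fun u v h => ⟨h.1.symm, h.2.2, h.2.1⟩⟩
  loopless := ⟨fun u h => G.irrefl h.1⟩

end AAux

open AAux

theorem a1 : StmtA1 := by
  classical
  intro V _ G hreg C hC
  have h1 : ∑ v, (inG G C).degree v = 2 * (inG G C).edgeFinset.card :=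
    (inG G C).sum_degrees_eq_twice_card_edges
  have hdeg : ∀ v, (inG G C).degree v = ∑ w, if v ∈ C ∧ w ∈ C ∧ G.Adj v w then 1 else 0 := by
    intro v
    rw [← Finset.card_filter, ← SimpleGraph.card_neighborFinset_eq_degree]
    congr 1
    ext w
    rw [SimpleGraph.mem_neighborFinset, Finset.mem_filter]
    show (G.Adj v w ∧ v ∈ C ∧ w ∈ C) ↔ (w ∈ Finset.univ ∧ v ∈ C ∧ w ∈ C ∧ G.Adj v w)
    simp only [Finset.mem_univ, true_and]
    tauto
  have hG : ∀ v, ∑ w, (if G.Adj v w then 1 else 0) = 5 := by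
    intro v
    rw [← hreg v, ← Finset.card_filter]
    have : G.neighborSet v = (((univ : Finset V).filter (fun w => G.Adj v w) : Finset V) :
        Set V) := by
      ext w; simp
    rw [this, Set.ncard_coe_finset]
  have hC5 : ∑ v, ∑ w, (if v ∈ C ∧ G.Adj v w then 1 else 0) = 5 * C.ncard := by
    have h2 : ∀ v, ∑ w, (if v ∈ C ∧ G.Adj v w then 1 else 0) = if v ∈ C then 5 else 0 := by
      intro v
      by_cases hv : v ∈ C
      · simp only [hv, true_and, if_true]
        exact hG v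
      · simp [hv]
    rw [Finset.sum_congr rfl (fun v _ => h2 v)]
    have h3 : C = (((univ : Finset V).filter (fun v => v ∈ C) : Finset V) : Set V) := by
      ext w; simp
    have h4 : C.ncard = ((univ : Finset V).filter (fun v => v ∈ C)).card := by
      conv_lhs => rw [h3]
      rw [Set.ncard_coe_finset]
    rw [h4, Finset.card_filter, Finset.mul_sum]
    apply Finset.sum_congr rfl
    intro v _
    split_ifs <;> simp
  have hsum : 5 * C.ncard = 2 * (inG G C).edgeFinset.card + cut G C := by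
    rw [← hC5, ← h1, cut_eq, ← Finset.sum_add_distrib]
    apply Finset.sum_congr rfl
    intro v _
    rw [hdeg v, ← Finset.sum_add_distrib]
    apply Finset.sum_congr rfl
    intro w _
    by_cases h1 : v ∈ C <;> by_cases h3 : w ∈ C <;> by_cases h5 : G.Adj v w <;> simp [h1, h3, h5]
  obtain ⟨k, hk⟩ := hC
  rw [hk] at hsum
  rw [Nat.odd_iff]
  omega

theorem a2 : StmtA2 := by
  intro V _ G hreg C D hC hD hne
  by_contra hdis
  rw [Set.not_disjoint_iff_nonempty_inter] at hdis
  obtain ⟨hC1, hC2, hC3⟩ := hC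
  obtain ⟨hD1, hD2, hD3⟩ := hD
  have hCD : C ∩ D ⊂ C := by
    refine Set.inter_subset_left.ssubset_of_ne (fun h => ?_)
    have h1 : C ⊆ D := Set.inter_eq_left.1 h
    exact hD3 C (h1.ssubset_of_ne hne) hC1 hC2
  have hcard : (C ∪ D).ncard + (C ∩ D).ncard = C.ncard + D.ncard :=
    Set.ncard_union_add_ncard_inter C D
  have hd1 : (C ∩ D).ncard + (C \ D).ncard = C.ncard := Set.ncard_inter_add_ncard_diff_eq_ncard C D
  have hd2 : (D ∩ C).ncard + (D \ C).ncard = D.ncard := Set.ncard_inter_add_ncard_diff_eq_ncard D C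
  rw [Set.inter_comm D C] at hd2
  rw [Nat.odd_iff] at hC1 hD1
  rcases Nat.even_or_odd (C ∩ D).ncard with he | ho
  · rw [Nat.even_iff] at he
    have o1 : Odd (C \ D).ncard := by rw [Nat.odd_iff]; omega
    have o2 : Odd (D \ C).ncard := by rw [Nat.odd_iff]; omega
    have c1 := a1 V G hreg _ o1
    have c2 := a1 V G hreg _ o2
    have h1 := submod2 G C D
    rw [Nat.odd_iff] at c1 c2
    have h2 : cut G (C \ D) = 1 := by omega
    refine hC3 (C \ D) (Set.diff_subset.ssubset_of_ne (fun h => ?_)) o1 h2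
    obtain ⟨x, hx⟩ := hdis
    have : x ∈ C \ D := by rw [h]; exact hx.1
    exact this.2 hx.2
  · have ho' := ho
    rw [Nat.odd_iff] at ho'
    have o2 : Odd (C ∪ D).ncard := by rw [Nat.odd_iff]; omega
    have c1 := a1 V G hreg _ ho
    have c2 := a1 V G hreg _ o2
    have h1 := submod G C D
    rw [Nat.odd_iff] at c1 c2
    have h2 : cut G (C ∩ D) = 1 := by omega
    exact hC3 (C ∩ D) hCD ho h2

theorem a3 : StmtA3 := by
  intro V _ G C
  induction hn : C.ncard using Nat.strong_induction_on generalizing C with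
  | _ n ih =>
    intro hodd hcut
    by_cases h : ∃ D : Set V, D ⊂ C ∧ Odd D.ncard ∧ cut G D = 1
    · obtain ⟨D, hDC, hD1, hD2⟩ := h
      have hlt : D.ncard < n := by
        rw [← hn]
        exact Set.ncard_lt_ncard hDC (Set.toFinite C)
      obtain ⟨E, hE, hE'⟩ := ih D.ncard hlt D rfl hD1 hD2
      exact ⟨E, hE.trans hDC.subset, hE'⟩
    · push Not at h
      exact ⟨C, subset_rfl, by rw [hn]; exact hodd, hcut, h⟩

end Pool.Agent.R229.FR
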