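import Pool.Agent.R229.FR.Stm

set_option autoImplicit false

/-! Part B of project FR: the augmented graph has a perfect matching (Tutte). -/

namespace Pool.Agent.R229.FR

open SimpleGraph Finset

theorem B_violator (V : Type) [Fintype V] (G : SimpleGraph V)
    (hreg : ∀ v, (G.neighborSet v).ncard = 5)
    (h3 : ∀ C₁ C₂ C₃ : Set V, Odd C₁.ncard → Odd C₂.ncard → Odd C₃.ncard →
      Disjoint C₁ C₂ → Disjoint C₁ C₃ → Disjoint C₂ C₃ →
      ¬ (cut G C₁ = 3 ∧ cut G C₂ = 3 ∧ cut G C₃ = 3))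
    (hA1 : ∀ C : Set V, Odd C.ncard → Odd (cut G C))
    (hA3 : ∀ C : Set V, Odd C.ncard → cut G C = 1 → ∃ D, D ⊆ C ∧ MinOne G D)
    (S : Set V) : ¬ (aug G).IsTutteViolator S := by
  classical
  intro hS
  unfold SimpleGraph.IsTutteViolator at hS
  set D := ((⊤ : (aug G).Subgraph).deleteVerts S).coe with hD
  let C : D.ConnectedComponent → Set V := fun K => Subtype.val '' K.supp
  have hCS : ∀ K v, v ∈ C K → v ∉ S := by
    rintro K v ⟨x, hx, rfl⟩ hxS
    exact x.2.2 hxS
  have hout : ∀ K v w, v ∈ C K → w ∉ C K → (aug G).Adj v w → w ∈ S := by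
    rintro K _ w ⟨x, hx, rfl⟩ hw hadj
    by_contra hwS
    apply hw
    have hwv : w ∈ ((⊤ : (aug G).Subgraph).deleteVerts S).verts := by
      rw [Subgraph.deleteVerts_verts]
      exact ⟨Set.mem_univ _, hwS⟩
    refine ⟨⟨w, hwv⟩, ?_, rfl⟩
    have hadjD : D.Adj x ⟨w, hwv⟩ := by
      rw [hD, Subgraph.coe_adj, Subgraph.deleteVerts_adj]
      exact ⟨Set.mem_univ _, x.2.2, Set.mem_univ _, hwS, hadj⟩
    rw [ConnectedComponent.mem_supp_iff] at hx ⊢
    rw [← hx]
    exact ConnectedComponent.connectedComponentMk_eq_of_adj hadjD.symm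
  have hdisj : ∀ K K', K ≠ K' → Disjoint (C K) (C K') := by
    intro K K' hne
    rw [Set.disjoint_left]
    rintro _ ⟨x, hx, rfl⟩ ⟨y, hy, hxy⟩
    have hyx : y = x := Subtype.val_injective hxy
    subst hyx
    rw [ConnectedComponent.mem_supp_iff] at hx hy
    exact hne (hx.symm.trans hy)
  have hodd : ∀ K ∈ D.oddComponents, Odd (C K).ncard := by
    intro K hK
    have : (C K).ncard = K.supp.ncard := Set.ncard_image_of_injective _ Subtype.val_injective
    rw [this]
    exact hK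
  -- parity
  have hv : ((⊤ : (aug G).Subgraph).deleteVerts S).verts = Sᶜ := by
    rw [Subgraph.deleteVerts_verts, Subgraph.verts_top, Set.compl_eq_univ_sdiff]
  have hpar := D.odd_ncard_oddComponents
  have hcard : Nat.card ((⊤ : (aug G).Subgraph).deleteVerts S).verts = (Sᶜ).ncard := by
    rw [Nat.card_coe_set_eq, hv]
  rw [hcard] at hpar
  have hcomp : S.ncard + (Sᶜ).ncard = Nat.card V := Set.ncard_add_ncard_compl S
  have hVeven : ¬ Odd (Nat.card V) := by
    intro ho
    have h1 := hA1 Set.univ (by rwa [Set.ncard_univ])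
    have h2 : cut G Set.univ = 0 := by
      unfold cut
      simp
    rw [h2] at h1
    exact absurd h1 (by decide)
  have hq2 : S.ncard + 2 ≤ D.oddComponents.ncard := by
    rw [Nat.odd_iff, Nat.odd_iff] at hpar
    rw [Nat.odd_iff] at hVeven
    omega
  -- finite set of components
  set 𝒦 : Finset D.ConnectedComponent := (Set.toFinite D.oddComponents).toFinset with h𝒦
  have hKmem : ∀ K, K ∈ 𝒦 ↔ K ∈ D.oddComponents := fun K => by rw [h𝒦, Set.Finite.mem_toFinset]
  have hKcard : 𝒦.card = D.oddComponents.ncard := by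
    rw [h𝒦, Set.ncard_eq_toFinset_card _ (Set.toFinite D.oddComponents)]
  -- the sum of the cuts
  let F : D.ConnectedComponent → Finset (V × V) := fun K =>
    Finset.univ.filter (fun p : V × V => p.1 ∈ C K ∧ p.2 ∉ C K ∧ G.Adj p.1 p.2)
  have hF : ∀ K, cut G (C K) = (F K).card := by
    intro K
    unfold cut
    rw [← Set.ncard_coe_finset]
    congr 1
    ext p
    simp [F]
  let P : Finset (V × V) := Finset.univ.filter (fun p : V × V => p.2 ∈ S ∧ G.Adj p.1 p.2)
  have hFP : ∀ K, F K ⊆ P := by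
    intro K p hp
    simp only [F, P, Finset.mem_filter, Finset.mem_univ, true_and] at hp ⊢
    exact ⟨hout K p.1 p.2 hp.1 hp.2.1 (Or.inl hp.2.2), hp.2.2⟩
  have hFd : ∀ K ∈ 𝒦, ∀ K' ∈ 𝒦, K ≠ K' → Disjoint (F K) (F K') := by
    intro K _ K' _ hne
    rw [Finset.disjoint_left]
    intro p hp hp'
    simp only [F, Finset.mem_filter, Finset.mem_univ, true_and] at hp hp'
    exact (Set.disjoint_left.mp (hdisj K K' hne)) hp.1 hp'.1
  have hsum : ∑ K ∈ 𝒦, cut G (C K) ≤ P.card := by
    calc ∑ K ∈ 𝒦, cut G (C K) = ∑ K ∈ 𝒦, (F K).card := Finset.sum_congr rfl fun K _ => hF K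
      _ = (𝒦.biUnion F).card := (Finset.card_biUnion hFd).symm
      _ ≤ P.card := Finset.card_le_card (Finset.biUnion_subset.mpr fun K _ => hFP K)
  have hP : P.card ≤ 5 * S.ncard := by
    have h1 : P.card ≤ 5 * (Set.toFinite S).toFinset.card := by
      apply Finset.card_le_mul_card_image_of_maps_to (f := Prod.snd)
      · intro p hp
        simp only [P, Finset.mem_filter, Finset.mem_univ, true_and] at hp
        rw [Set.Finite.mem_toFinset]
        exact hp.1
      · intro s hs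
        have h2 : (P.filter (fun p => p.2 = s)) ⊆
            ((Set.toFinite (G.neighborSet s)).toFinset).image (fun v => (v, s)) := by
          intro p hp
          simp only [P, Finset.mem_filter, Finset.mem_univ, true_and] at hp
          rw [Finset.mem_image]
          refine ⟨p.1, ?_, ?_⟩
          · rw [Set.Finite.mem_toFinset, SimpleGraph.mem_neighborSet, ← hp.2]
            exact hp.1.2.symm
          · rw [← hp.2]
        calc (P.filter (fun p => p.2 = s)).card ≤ _ := Finset.card_le_card h2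
          _ ≤ ((Set.toFinite (G.neighborSet s)).toFinset).card := Finset.card_image_le
          _ = (G.neighborSet s).ncard :=
            (Set.ncard_eq_toFinset_card _ (Set.toFinite (G.neighborSet s))).symm
          _ ≤ 5 := (hreg s).le
    rwa [← Set.ncard_eq_toFinset_card _ (Set.toFinite S)] at h1
  -- components meeting the set of ends
  have hm1 : (𝒦.filter (fun K => (C K ∩ ends G).Nonempty)).card ≤ 1 := by
    rw [Finset.card_le_one]
    intro K hK K' hK'
    by_contra hne
    rw [Finset.mem_filter] at hK hK'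
    obtain ⟨v, hvC, hvE⟩ := hK.2
    obtain ⟨w, hwC, hwE⟩ := hK'.2
    have hd := Set.disjoint_left.mp (hdisj K K' hne)
    have hvw : v ≠ w := by
      rintro rfl
      exact hd hvC hwC
    have hwS := hout K v w hvC (fun h => hd h hwC) (Or.inr ⟨hvw, hvE, hwE⟩)
    exact hCS K' w hwC hwS
  set 𝒦' := 𝒦.filter (fun K => ¬ (C K ∩ ends G).Nonempty) with h𝒦'
  have hadd : (𝒦.filter (fun K => (C K ∩ ends G).Nonempty)).card + 𝒦'.card = 𝒦.card :=
    Finset.card_filter_add_card_filter_not _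
  have hcut : ∀ K ∈ 𝒦', Odd (cut G (C K)) ∧ cut G (C K) ≠ 1 := by
    intro K hK
    rw [h𝒦', Finset.mem_filter, hKmem] at hK
    refine ⟨hA1 _ (hodd K hK.1), fun h1 => hK.2 ?_⟩
    obtain ⟨E, hEC, hE⟩ := hA3 _ (hodd K hK.1) h1
    have hne : {p : V × V | p.1 ∈ E ∧ p.2 ∉ E ∧ G.Adj p.1 p.2}.Nonempty := by
      rw [← Set.ncard_pos]
      have := hE.2.1
      unfold cut at this
      omega
    obtain ⟨p, hp⟩ := hne
    exact ⟨p.1, hEC hp.1, E, hE, hp.1, p.2, hp.2.1, hp.2.2⟩
  have h32 : (𝒦'.filter (fun K => cut G (C K) = 3)).card ≤ 2 := by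
    by_contra hcon
    push Not at hcon
    obtain ⟨K1, h1, K2, h2, K3, h4, h12, h13, h23⟩ := Finset.two_lt_card.mp hcon
    rw [Finset.mem_filter, h𝒦', Finset.mem_filter, hKmem] at h1 h2 h4
    exact h3 (C K1) (C K2) (C K3) (hodd _ h1.1.1) (hodd _ h2.1.1) (hodd _ h4.1.1)
      (hdisj _ _ h12) (hdisj _ _ h13) (hdisj _ _ h23) ⟨h1.2, h2.2, h4.2⟩
  have h5 : ∑ K ∈ 𝒦', 5 ≤ ∑ K ∈ 𝒦', (cut G (C K) + if cut G (C K) = 3 then 2 else 0) := by
    refine Finset.sum_le_sum fun K hK => ?_
    obtain ⟨ho, hn⟩ := hcut K hK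
    rw [Nat.odd_iff] at ho
    split_ifs with h
    · omega
    · omega
  rw [Finset.sum_const, smul_eq_mul, Finset.sum_add_distrib, ← Finset.sum_filter,
    Finset.sum_const, smul_eq_mul] at h5
  have h6 : ∑ K ∈ 𝒦', cut G (C K) ≤ ∑ K ∈ 𝒦, cut G (C K) :=
    Finset.sum_le_sum_of_subset (Finset.filter_subset _ _)
  omega

theorem b : StmtB := by
  intro V _ G hreg h3 hA1 hA3
  obtain ⟨M, hM⟩ := (SimpleGraph.tutte (G := aug G)).mpr
    (fun S => B_violator V G hreg h3 hA1 hA3 S)
  have h1 : ∀ v, ∃! w, M.Adj v w := fun v => hM.1 (hM.2 v)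
  choose f hf huniq using fun v => (h1 v)
  refine ⟨f, fun v => ⟨M.adj_sub (hf v), ?_⟩⟩
  exact (huniq (f v) v (hf v).symm).symm

end Pool.Agent.R229.FR
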