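import Pool.Agent.R229.FR.Defs

set_option autoImplicit false

/-! From a perfect matching of the augmented graph to a `{1,4}`-factor. -/

namespace Pool.Agent.R229.FR

open Classical

variable {V : Type} [Fintype V] {G : SimpleGraph V}

theorem MinOne.out {C : Set V} (h : MinOne G C) :
    ∃ a b, a ∈ C ∧ b ∉ C ∧ G.Adj a b ∧ ∀ u ∈ C, ∀ w, w ∉ C → G.Adj u w → u = a ∧ w = b := by
  have h1 := h.2.1
  unfold cut at h1
  obtain ⟨⟨a, b⟩, hab⟩ := Set.ncard_eq_one.mp h1
  have hm : (a, b) ∈ {p : V × V | p.1 ∈ C ∧ p.2 ∉ C ∧ G.Adj p.1 p.2} := by rw [hab]; rfl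
  refine ⟨a, b, hm.1, hm.2.1, hm.2.2, ?_⟩
  intro u hu w hw huw
  have : (u, w) ∈ {p : V × V | p.1 ∈ C ∧ p.2 ∉ C ∧ G.Adj p.1 p.2} := ⟨hu, hw, huw⟩
  rw [hab] at this
  simpa using this

theorem even_of_involution (C : Set V) (f : V → V) (hfC : ∀ v ∈ C, f v ∈ C)
    (hne : ∀ v ∈ C, f v ≠ v) (hff : ∀ v, f (f v) = v) : Even C.ncard := by
  have h0 : (∑ _v ∈ C.toFinset, (1 : ZMod 2)) = 0 := by
    refine Finset.sum_involution (fun v _ => f v) ?_ ?_ ?_ ?_
    · intro v hv
      exact (by decide : (1 : ZMod 2) + 1 = 0)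
    · intro v hv _
      exact hne v (by simpa using hv)
    · intro v hv
      simpa using hfC v (by simpa using hv)
    · intro v hv
      exact hff v
  rw [Set.ncard_eq_toFinset_card']
  rw [Finset.sum_const, nsmul_eq_mul, mul_one] at h0
  exact (ZMod.natCast_eq_zero_iff_even).mp h0

theorem c (h5 : ∀ v, (G.neighborSet v).ncard = 5)
    (hdisj : ∀ C D : Set V, MinOne G C → MinOne G D → C ≠ D → Disjoint C D)
    (f : V → V) (hf : ∀ v, (aug G).Adj v (f v) ∧ f (f v) = v) :
    ∃ H ≤ G, ∀ v, (H.neighborSet v).ncard = 1 ∨ (H.neighborSet v).ncard = 4 := by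
  have hff : ∀ v, f (f v) = v := fun v => (hf v).2
  have haug : ∀ v, G.Adj v (f v) ∨ (v ≠ f v ∧ v ∈ ends G ∧ f v ∈ ends G) := fun v => (hf v).1
  have hne : ∀ v, f v ≠ v := by
    intro v h
    rcases haug v with h1 | h1
    · rw [h] at h1; exact G.irrefl h1
    · exact h1.1 h.symm
  -- uniqueness of the minimal set through a vertex
  have huniq : ∀ C D : Set V, MinOne G C → MinOne G D → ∀ v, v ∈ C → v ∈ D → C = D := by
    intro C D hC hD v hvC hvD
    by_contra hCD
    exact Set.disjoint_left.mp (hdisj C D hC hD hCD) hvC hvD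
  have hend : ∀ C : Set V, MinOne G C → ∀ a b, a ∈ C → b ∉ C → G.Adj a b →
      (∀ u ∈ C, ∀ w, w ∉ C → G.Adj u w → u = a ∧ w = b) →
      ∀ v ∈ C, v ∈ ends G → v = a := by
    intro C hC a b ha hb hab hu v hv hve
    obtain ⟨D, hD, hvD, w, hw, hvw⟩ := hve
    have hCD : C = D := huniq C D hC hD v hv hvD
    subst hCD
    exact (hu v hv w hw hvw).1
  have hin : ∀ C : Set V, MinOne G C → ∀ a b, a ∈ C → b ∉ C → G.Adj a b →
      (∀ u ∈ C, ∀ w, w ∉ C → G.Adj u w → u = a ∧ w = b) →
      ∀ v ∈ C, v ≠ a → f v ∈ C ∧ G.Adj v (f v) := by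
    intro C hC a b ha hb hab hu v hv hva
    rcases haug v with h1 | h1
    · refine ⟨?_, h1⟩
      by_contra hfC
      exact hva (hu v hv _ hfC h1).1
    · exact absurd (hend C hC a b ha hb hab hu v hv h1.2.1) hva
  have hout : ∀ C : Set V, MinOne G C → ∀ a b, a ∈ C → b ∉ C → G.Adj a b →
      (∀ u ∈ C, ∀ w, w ∉ C → G.Adj u w → u = a ∧ w = b) → f a ∉ C := by
    intro C hC a b ha hb hab hu hfa
    have : Even C.ncard := by
      refine even_of_involution C f ?_ (fun v _ => hne v) hff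
      intro v hv
      by_cases hva : v = a
      · rw [hva]; exact hfa
      · exact (hin C hC a b ha hb hab hu v hv hva).1
    exact (Nat.not_even_iff_odd.mpr hC.1) this
  let Bad : Set V → Prop := fun C => MinOne G C ∧ ∃ a ∈ C, f a ∉ C ∧ ¬ G.Adj a (f a)
  let H : SimpleGraph V :=
    { Adj := fun u v => G.Adj u v ∧ ((∃ C, Bad C ∧ u ∈ C ∧ v ∈ C ∧ f u ≠ v) ∨
        ((¬ ∃ C, Bad C ∧ u ∈ C ∧ v ∈ C) ∧ f u = v))
      symm := ⟨by
        rintro u v ⟨h1, h2⟩
        refine ⟨h1.symm, ?_⟩
        rcases h2 with ⟨C, hC, hu, hv, hfuv⟩ | ⟨hno, hfuv⟩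
        · refine Or.inl ⟨C, hC, hv, hu, ?_⟩
          intro h
          apply hfuv
          rw [← h]; exact hff v
        · refine Or.inr ⟨?_, ?_⟩
          · rintro ⟨C, hC, hv, hu⟩
            exact hno ⟨C, hC, hu, hv⟩
          · rw [← hfuv]; exact hff u⟩
      loopless := ⟨by
        rintro u ⟨h1, _⟩
        exact G.irrefl h1⟩ }
  refine ⟨H, fun u v h => h.1, ?_⟩
  intro v
  by_cases hv : ∃ C, Bad C ∧ v ∈ C
  · right
    obtain ⟨C, hC, hvC⟩ := hv
    obtain ⟨a, b, ha, hb, hab, hu⟩ := hC.1.out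
    obtain ⟨a', ha', hfa', hnadj⟩ := hC.2
    have haa' : a' = a := by
      by_contra h
      exact hfa' (hin C hC.1 a b ha hb hab hu a' ha' h).1
    subst haa'
    by_cases hva : v = a'
    · -- the end vertex
      subst hva
      have hset : H.neighborSet v = G.neighborSet v \ {b} := by
        ext w
        simp only [SimpleGraph.mem_neighborSet, Set.mem_diff, Set.mem_singleton_iff]
        constructor
        · rintro ⟨h1, h2⟩
          refine ⟨h1, ?_⟩
          rintro rfl
          rcases h2 with ⟨D, hD, hvD, hwD, _⟩ | ⟨_, hfv⟩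
          · have : C = D := huniq C D hC.1 hD.1 v ha hvD
            subst this
            exact hb hwD
          · rw [hfv] at hnadj; exact hnadj h1
        · rintro ⟨h1, h2⟩
          have hwC : w ∈ C := by
            by_contra hw
            exact h2 (hu v ha w hw h1).2
          refine ⟨h1, Or.inl ⟨C, hC, ha, hwC, ?_⟩⟩
          intro h
          rw [h] at hfa'
          exact hfa' hwC
      rw [hset, Set.ncard_diff_singleton_of_mem (by exact hab), h5 v]
    · have h1 := hin C hC.1 a' b ha hb hab hu v hvC hva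
      have hset : H.neighborSet v = G.neighborSet v \ {f v} := by
        ext w
        simp only [SimpleGraph.mem_neighborSet, Set.mem_diff, Set.mem_singleton_iff]
        constructor
        · rintro ⟨h2, h3⟩
          refine ⟨h2, ?_⟩
          rintro rfl
          rcases h3 with ⟨D, hD, hvD, hwD, h4⟩ | ⟨h4, _⟩
          · exact h4 rfl
          · exact h4 ⟨C, hC, hvC, h1.1⟩
        · rintro ⟨h2, h3⟩
          have hwC : w ∈ C := by
            by_contra hw
            exact hva (hu v hvC w hw h2).1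
          exact ⟨h2, Or.inl ⟨C, hC, hvC, hwC, fun h => h3 h.symm⟩⟩
      rw [hset, Set.ncard_diff_singleton_of_mem (by exact h1.2), h5 v]
  · left
    have hadj : G.Adj v (f v) := by
      rcases haug v with h1 | h1
      · exact h1
      · by_contra hn
        obtain ⟨C, hC, hvC, w, hw, hvw⟩ := h1.2.1
        obtain ⟨a, b, ha, hb, hab, hu⟩ := hC.out
        have hva : v = a := (hu v hvC w hw hvw).1
        subst hva
        exact hv ⟨C, ⟨hC, v, ha, hout C hC v b ha hb hab hu, hn⟩, hvC⟩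
    have hset : H.neighborSet v = {f v} := by
      ext w
      simp only [SimpleGraph.mem_neighborSet, Set.mem_singleton_iff]
      constructor
      · rintro ⟨_, h3⟩
        rcases h3 with ⟨D, hD, hvD, _, _⟩ | ⟨_, h4⟩
        · exact absurd ⟨D, hD, hvD⟩ hv
        · exact h4.symm
      · rintro rfl
        refine ⟨hadj, Or.inr ⟨?_, rfl⟩⟩
        rintro ⟨C, hC, hvC, _⟩
        exact hv ⟨C, hC, hvC⟩
    rw [hset, Set.ncard_singleton]

end Pool.Agent.R229.FR
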