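import Pool.Agent.R229.FR.Stm2

set_option autoImplicit false

/-! Statements of the parts of the structure theorem (project FR3, MP_39c6f6_co). -/

namespace Pool.Agent.R229.FR

/-- U2: T2 relative to a set `T`. -/
def StmtU2 : Prop := ∀ (V : Type) [Fintype V] (X : SimpleGraph V) (T : Set V),
  ∃ (A : Set V) (𝒦 : Finset (Set V)), Barrier X T A 𝒦 ∧
    (∀ K ∈ 𝒦, ∀ x ∈ K, ∃ f : V → V, MatchedOn X (K \ {x}) f) ∧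
    (∃ f : V → V, MatchedOn X {v | v ∈ T ∧ v ∉ A ∧ ∀ K ∈ 𝒦, v ∉ K} f) ∧
    (∃ φ : V → Set V, (∀ a ∈ A, φ a ∈ 𝒦 ∧ ∃ k ∈ φ a, X.Adj a k) ∧ Set.InjOn φ A)

/-- U3: Hall argument relative to `T`. -/
def StmtU3 : Prop := ∀ (V : Type) [Fintype V] [Nonempty V] (G : SimpleGraph V),
  (∀ v, (G.neighborSet v).ncard = 5) → ∀ (T A : Set V) (𝒦 : Finset (Set V)), Barrier G T A 𝒦 →
  ∀ Q : Set V → Prop, (∀ K ∈ 𝒦, Q K → 5 ≤ cut G K) →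
  {p : V × V | (∃ K ∈ 𝒦, Q K ∧ p.1 ∈ K) ∧ p.2 ∉ T ∧ G.Adj p.1 p.2}.ncard ≤ 4 →
  ∃ g : Set V → V, (∀ K ∈ 𝒦, Q K → g K ∈ A ∧ ∃ k ∈ K, G.Adj (g K) k) ∧
    Set.InjOn g {K | K ∈ 𝒦 ∧ Q K}

/-- U5: assembling relative to `T`, with exceptional set `Y`. -/
def StmtU5 : Prop := ∀ (V : Type) [Fintype V] (G : SimpleGraph V) (T A Y : Set V)
  (𝒦 : Finset (Set V)), Barrier G T A 𝒦 →
  (∀ K ∈ 𝒦, ∀ x ∈ K, ∃ f : V → V, MatchedOn G (K \ {x}) f) →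
  (∃ f : V → V, MatchedOn G {v | v ∈ T ∧ v ∉ A ∧ ∀ K ∈ 𝒦, v ∉ K} f) →
  ∀ ψ : V → Set V, (∀ a ∈ A, ψ a ∈ 𝒦 ∧ ∃ k ∈ ψ a, G.Adj a k) → Set.InjOn ψ A →
  (∀ K ∈ 𝒦, (∀ a ∈ A, ψ a ≠ K) → (∃ x ∈ K, x ∈ Y) ∨ FactorOn G K) →
  ∃ H₀ : SimpleGraph V, H₀ ≤ G ∧ (∀ u v, H₀.Adj u v → u ∈ T ∧ v ∈ T) ∧
    ∀ v ∈ T, (H₀.neighborSet v).ncard = 1 ∨ (H₀.neighborSet v).ncard = 4 ∨
      (v ∈ Y ∧ (H₀.neighborSet v).ncard = 0)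

/-- U7: an odd set with three outgoing edges all of whose proper odd subsets have at least five
outgoing edges is critical. -/
def StmtU7 : Prop := ∀ (V : Type) [Fintype V] (G : SimpleGraph V),
  (∀ v, (G.neighborSet v).ncard = 5) → ∀ D : Set V, Odd D.ncard → cut G D = 3 →
  (∀ E, E ⊂ D → Odd E.ncard → 5 ≤ cut G E) →
  ∀ x ∈ D, ∃ f : V → V, MatchedOn G (D \ {x}) f

/-- U8: such a set realizes every pattern `R` on its three outgoing edges, if it has a factor. -/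
def StmtU8 : Prop := ∀ (V : Type) [Fintype V] (G : SimpleGraph V),
  (∀ v, (G.neighborSet v).ncard = 5) → ∀ D : Set V, cut G D = 3 → FactorOn G D →
  (∀ x ∈ D, ∃ f : V → V, MatchedOn G (D \ {x}) f) →
  ∀ R : Set (V × V), R ⊆ {p : V × V | p.1 ∈ D ∧ p.2 ∉ D ∧ G.Adj p.1 p.2} →
  ∃ F : SimpleGraph V, F ≤ G ∧ (∀ u v, F.Adj u v → u ∈ D ∧ v ∈ D) ∧
    ∀ v ∈ D, (F.neighborSet v).ncard + {w | (v, w) ∈ R}.ncard = 1 ∨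
      (F.neighborSet v).ncard + {w | (v, w) ∈ R}.ncard = 4

/-- U10: assembling `C` from `D` and `C \ D`. -/
def StmtU10 : Prop := ∀ (V : Type) [Fintype V] (G : SimpleGraph V) (C D : Set V), D ⊆ C →
  (∀ R : Set (V × V), R ⊆ {p : V × V | p.1 ∈ D ∧ p.2 ∉ D ∧ G.Adj p.1 p.2} →
    ∃ F : SimpleGraph V, F ≤ G ∧ (∀ u v, F.Adj u v → u ∈ D ∧ v ∈ D) ∧
      ∀ v ∈ D, (F.neighborSet v).ncard + {w | (v, w) ∈ R}.ncard = 1 ∨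
        (F.neighborSet v).ncard + {w | (v, w) ∈ R}.ncard = 4) →
  ∀ H₀ : SimpleGraph V, H₀ ≤ G → (∀ u v, H₀.Adj u v → u ∈ C \ D ∧ v ∈ C \ D) →
    (∀ v ∈ C \ D, (H₀.neighborSet v).ncard = 1 ∨ (H₀.neighborSet v).ncard = 4 ∨
      ((∃ w ∈ D, G.Adj v w) ∧ (H₀.neighborSet v).ncard = 0)) →
    FactorOn G C

end Pool.Agent.R229.FR
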