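import Pool.Agent.R229.FR.Stm2

set_option autoImplicit false

/-! Part T1 of project FR2 (MP_39c6f6_co): Tutte's theorem on a subset. -/

namespace Pool.Agent.R229.FR

namespace T1aux

/-- The barrier given by the odd components of a graph `Z` embedded on `T \ A`. -/
theorem barrier_of {V W : Type} [Fintype V] [Finite W] (X : SimpleGraph V) (Z : SimpleGraph W)
    (T A : Set V) (ι : W → V) (hι : Function.Injective ι) (hA : A ⊆ T)
    (hr : Set.range ι = T \ A) (hadj : ∀ z z', X.Adj (ι z) (ι z') → Z.Adj z z')
    (hlt : A.ncard < Z.oddComponents.ncard) :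
    ∃ 𝒦 : Finset (Set V), Barrier X T A 𝒦 ∧ A.ncard + 1 ≤ 𝒦.card ∧
      Even (A.ncard + 𝒦.card + T.ncard) := by
  classical
  have hfin : Z.oddComponents.Finite := Set.toFinite _
  have hinj : Function.Injective (fun c : Z.ConnectedComponent => ι '' c.supp) := by
    intro c c' h
    have h1 : c.supp = c'.supp := hι.image_injective h
    exact SimpleGraph.ConnectedComponent.supp_injective h1
  have hcard : (hfin.toFinset.image (fun c : Z.ConnectedComponent => ι '' c.supp)).card =
      Z.oddComponents.ncard := by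
    rw [Finset.card_image_of_injective _ hinj, Set.ncard_eq_toFinset_card _ hfin]
  refine ⟨hfin.toFinset.image (fun c => ι '' c.supp), ⟨hA, ?_, ?_⟩, ?_, ?_⟩
  · intro K hK
    rw [Finset.mem_image] at hK
    obtain ⟨c, hc, rfl⟩ := hK
    rw [Set.Finite.mem_toFinset] at hc
    have hsub : ι '' c.supp ⊆ T \ A := by
      rw [← hr]; exact Set.image_subset_range _ _
    refine ⟨fun x hx => (hsub hx).1, ?_, ?_, ?_⟩
    · rw [Set.disjoint_left]
      exact fun x hx => (hsub hx).2
    · rw [Set.ncard_image_of_injective _ hι]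
      exact hc
    · rintro u ⟨z, hz, rfl⟩ w hw huw
      by_cases hwA : w ∈ A
      · exact Or.inr hwA
      · left
        have : w ∈ Set.range ι := by rw [hr]; exact ⟨hw, hwA⟩
        obtain ⟨z', rfl⟩ := this
        refine ⟨z', ?_, rfl⟩
        have h1 := hadj _ _ huw
        exact (c.mem_supp_congr_adj h1).mp hz
  · intro K hK L hL hKL
    rw [Finset.mem_image] at hK hL
    obtain ⟨c, hc, rfl⟩ := hK
    obtain ⟨c', hc', rfl⟩ := hL
    have hne : c ≠ c' := by
      rintro rfl
      exact hKL rfl
    rw [Set.disjoint_image_iff hι]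
    exact SimpleGraph.pairwise_disjoint_supp_connectedComponent Z hne
  · rw [hcard]; exact hlt
  · rw [hcard]
    have h1 : T.ncard = A.ncard + Nat.card W := by
      have h2 : (T \ A).ncard = Nat.card W := by
        rw [← hr, ← Set.image_univ, Set.ncard_image_of_injective _ hι, Set.ncard_univ]
      have h3 := Set.ncard_sdiff_add_ncard_of_subset hA (Set.toFinite T)
      omega
    have h4 := Z.odd_ncard_oddComponents
    rw [h1]
    rcases Nat.even_or_odd Z.oddComponents.ncard with h5 | h5
    · have h6 : Even (Nat.card W) := by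
        rw [← Nat.not_odd_iff_even] at h5 ⊢
        exact fun h => h5 (h4.mpr h)
      have : A.ncard + Z.oddComponents.ncard + (A.ncard + Nat.card W) =
        (A.ncard + A.ncard) + (Z.oddComponents.ncard + Nat.card W) := by ring
      rw [this]
      exact (Even.add_self _).add (h5.add h6)
    · have h6 := h4.mp h5
      have : A.ncard + Z.oddComponents.ncard + (A.ncard + Nat.card W) =
        (A.ncard + A.ncard) + (Z.oddComponents.ncard + Nat.card W) := by ring
      rw [this]
      exact (Even.add_self _).add (h5.add_odd h6)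

end T1aux

theorem t1 : StmtT1 := by
  classical
  intro V _ X T
  by_cases hM : ∃ M : (X.induce T).Subgraph, M.IsPerfectMatching
  · left
    obtain ⟨M, hM1, hM2⟩ := hM
    have h1 : ∀ v : T, ∃ w : T, M.Adj v w ∧ ∀ w', M.Adj v w' → w' = w := by
      intro v
      obtain ⟨w, hw, hu⟩ := hM1 (hM2 v)
      exact ⟨w, hw, hu⟩
    choose g hg hgu using h1
    refine ⟨fun v => if h : v ∈ T then (g ⟨v, h⟩ : V) else v, ?_⟩
    intro v hv
    simp only [hv, dif_pos, Subtype.coe_prop, Subtype.coe_eta]
    have h2 := hg ⟨v, hv⟩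
    refine ⟨trivial, ?_, ?_⟩
    · exact M.adj_sub h2
    · have h3 := hgu _ _ h2.symm
      exact congrArg Subtype.val h3.symm
  · right
    rw [SimpleGraph.tutte] at hM
    push Not at hM
    obtain ⟨u, hu⟩ := hM
    unfold SimpleGraph.IsTutteViolator at hu
    have hvert : ∀ z : T, z ∈ ((⊤ : (X.induce T).Subgraph).deleteVerts u).verts ↔ z ∉ u := by
      intro z
      simp
    have hcard : (Subtype.val '' u : Set V).ncard = u.ncard :=
      Set.ncard_image_of_injective _ Subtype.val_injective
    obtain ⟨𝒦, h1, h2, h3⟩ := T1aux.barrier_of X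
      (((⊤ : (X.induce T).Subgraph).deleteVerts u).coe) T (Subtype.val '' u)
      (fun z => (z.1.1 : V)) (fun a b h => Subtype.ext (Subtype.ext h))
      (by rintro x ⟨z, _, rfl⟩; exact z.2)
      (by
        ext x
        constructor
        · rintro ⟨z, rfl⟩
          refine ⟨z.1.2, ?_⟩
          rintro ⟨z', hz', h⟩
          have : z' = z.1 := Subtype.ext h
          rw [this] at hz'
          exact ((hvert z.1).mp z.2) hz'
        · rintro ⟨hx, hx2⟩
          have hx3 : (⟨x, hx⟩ : T) ∉ u := fun h => hx2 ⟨_, h, rfl⟩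
          exact ⟨⟨⟨x, hx⟩, (hvert _).mpr hx3⟩, rfl⟩)
      (by
        intro z z' h
        have hz := (hvert z.1).mp z.2
        have hz' := (hvert z'.1).mp z'.2
        simp only [SimpleGraph.Subgraph.coe_adj, SimpleGraph.Subgraph.deleteVerts_adj,
          SimpleGraph.Subgraph.top_adj, SimpleGraph.comap_adj, SimpleGraph.Subgraph.verts_top,
          Set.mem_univ, true_and, SimpleGraph.induce_adj]
        exact ⟨hz, hz', h⟩)
      (by rw [hcard]; exact hu)
    exact ⟨_, 𝒦, h1, h2, h3⟩


end Pool.Agent.R229.FR
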