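import Pool.Agent.R229.FR.Stm2

/-!
# The theorem of Mendelsohn and Dulmage
-/

set_option autoImplicit false
set_option linter.all false

namespace Pool.Agent.R229.FR

/-- The elements that have to be matched by `g`. -/
inductive MDc {α β : Type} (A : Set α) (D : Set β) (φ : α → β) (g : β → α) : β → Prop
  | base (b : β) (hb : b ∈ D) (h : ∀ a ∈ A, φ a ≠ b) : MDc A D φ g b
  | step (b : β) (h : MDc A D φ g b) (hb : φ (g b) ∈ D) : MDc A D φ g (φ (g b))

theorem t4 : StmtT4 := by
  intro α β A D R φ g hφ hφi hg hgi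
  classical
  have hD : ∀ b, MDc A D φ g b → b ∈ D := by
    intro b hb
    cases hb with
    | base b hb h => exact hb
    | step b h hb => exact hb
  let ψ : α → β := fun a => if h : ∃ b, MDc A D φ g b ∧ g b = a then h.choose else φ a
  have h1 : ∀ b, MDc A D φ g b → ψ (g b) = b := by
    intro b hb
    have h : ∃ b', MDc A D φ g b' ∧ g b' = g b := ⟨b, hb, rfl⟩
    change (if h : ∃ b', MDc A D φ g b' ∧ g b' = g b then h.choose else φ (g b)) = b
    rw [dif_pos h]
    exact hgi (hD _ h.choose_spec.1) (hD _ hb) h.choose_spec.2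
  have h2 : ∀ a, (¬ ∃ b, MDc A D φ g b ∧ g b = a) → ψ a = φ a := by
    intro a h
    exact dif_neg h
  refine ⟨ψ, ?_, ?_, ?_⟩
  · intro a ha
    by_cases h : ∃ b, MDc A D φ g b ∧ g b = a
    · obtain ⟨b, hb, rfl⟩ := h
      rw [h1 b hb]
      exact (hg b (hD b hb)).2
    · rw [h2 a h]
      exact hφ a ha
  · have key : ∀ b a', MDc A D φ g b → a' ∈ A → (¬ ∃ b, MDc A D φ g b ∧ g b = a') →
        b ≠ φ a' := by
      intro b a' hb ha' hn he
      cases hb with
      | base b hb h => exact h a' ha' he.symm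
      | step b h hb => exact hn ⟨b, h, hφi (hg b (hD b h)).1 ha' he⟩
    intro a ha a' ha' he
    by_cases h : ∃ b, MDc A D φ g b ∧ g b = a
    · by_cases h' : ∃ b, MDc A D φ g b ∧ g b = a'
      · obtain ⟨b, hb, rfl⟩ := h
        obtain ⟨b', hb', rfl⟩ := h'
        rw [h1 b hb, h1 b' hb'] at he
        rw [he]
      · obtain ⟨b, hb, rfl⟩ := h
        rw [h1 b hb, h2 a' h'] at he
        exact absurd he (key b a' hb ha' h')
    · by_cases h' : ∃ b, MDc A D φ g b ∧ g b = a'
      · obtain ⟨b, hb, rfl⟩ := h'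
        rw [h1 b hb, h2 a h] at he
        exact absurd he.symm (key b a hb ha h)
      · rw [h2 a h, h2 a' h'] at he
        exact hφi ha ha' he
  · intro b hb
    by_cases h : MDc A D φ g b
    · exact ⟨g b, (hg b hb).1, h1 b h⟩
    · have h3 : ∃ a ∈ A, φ a = b := by
        by_contra h4
        push Not at h4
        exact h (MDc.base b hb h4)
      obtain ⟨a, ha, rfl⟩ := h3
      refine ⟨a, ha, h2 a ?_⟩
      rintro ⟨b', hb', rfl⟩
      exact h (MDc.step b' hb' hb)

end Pool.Agent.R229.FR
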