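import Pool.Agent.R229.FR.A
import Pool.Agent.R229.FR.T1
import Pool.Agent.R229.FR.T4
import Pool.Agent.R229.FR.U6
import Pool.Agent.R229.FR.Stm3

set_option autoImplicit false

namespace Pool.Agent.R229.FR

theorem core (hT4 : StmtT4) (hU2 : StmtU2) (hU3 : StmtU3) (hU5 : StmtU5)
    {V : Type} [Fintype V] (G : SimpleGraph V) (h5 : ∀ v, (G.neighborSet v).ncard = 5)
    (T Y : Set V)
    (hQ : ∀ K, K ⊂ T → Odd K.ncard → Disjoint K Y → ¬ FactorOn G K → 5 ≤ cut G K)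
    (hb : {p : V × V | p.1 ∈ T ∧ p.1 ∉ Y ∧ p.2 ∉ T ∧ G.Adj p.1 p.2}.ncard ≤ 4) :
    (∃ H₀ : SimpleGraph V, H₀ ≤ G ∧ (∀ u v, H₀.Adj u v → u ∈ T ∧ v ∈ T) ∧
      ∀ v ∈ T, (H₀.neighborSet v).ncard = 1 ∨ (H₀.neighborSet v).ncard = 4 ∨
        (v ∈ Y ∧ (H₀.neighborSet v).ncard = 0)) ∨
    (Odd T.ncard ∧ ∀ x ∈ T, ∃ f : V → V, MatchedOn G (T \ {x}) f) := by
  classical
  rcases isEmpty_or_nonempty V with hV | hV
  · left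
    exact ⟨⊥, bot_le, fun u => (hV.false u).elim, fun v => (hV.false v).elim⟩
  obtain ⟨A, 𝒦, hB, hcrit, hrest, φ, hφ, hφi⟩ := hU2 V G T
  by_cases hT : T ∈ 𝒦
  · right
    exact ⟨(hB.2.1 T hT).2.2.1, hcrit T hT⟩
  left
  have hKT : ∀ K ∈ 𝒦, K ⊂ T := by
    intro K hK
    refine lt_of_le_of_ne (hB.2.1 K hK).1 ?_
    rintro rfl
    exact hT hK
  have hcount : {p : V × V | (∃ K ∈ 𝒦, (Disjoint K Y ∧ ¬ FactorOn G K) ∧ p.1 ∈ K) ∧ p.2 ∉ T ∧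
      G.Adj p.1 p.2}.ncard ≤ 4 := by
    refine le_trans (Set.ncard_le_ncard ?_ (Set.toFinite _)) hb
    rintro p ⟨⟨K, hK, hq, hpK⟩, h2, h3⟩
    exact ⟨(hKT K hK).1 hpK, fun hY => Set.disjoint_left.mp hq.1 hpK hY, h2, h3⟩
  obtain ⟨g, hg, hgi⟩ := hU3 V G h5 T A 𝒦 hB (fun K => Disjoint K Y ∧ ¬ FactorOn G K)
    (fun K hK hq => hQ K (hKT K hK) (hB.2.1 K hK).2.2.1 hq.1 hq.2) hcount
  obtain ⟨ψ, hψ, hψi, hψD⟩ := hT4 V (Set V) A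
    {K | K ∈ 𝒦 ∧ (Disjoint K Y ∧ ¬ FactorOn G K)}
    (fun a K => K ∈ 𝒦 ∧ ∃ k ∈ K, G.Adj a k) φ g hφ hφi
    (by
      rintro K ⟨hK, hq⟩
      obtain ⟨h1, k, hk, hadj⟩ := hg K hK hq
      exact ⟨h1, hK, k, hk, hadj⟩) hgi
  exact hU5 V G T A Y 𝒦 hB hcrit hrest ψ hψ hψi (by
    intro K hK hun
    by_contra hno
    push Not at hno
    obtain ⟨h1, h2⟩ := hno
    obtain ⟨a, ha, haK⟩ := hψD K ⟨hK, Set.disjoint_left.mpr (fun x hx => h1 x hx), h2⟩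
    exact hun a ha haK)

end Pool.Agent.R229.FR
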