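import Mathlib

set_option autoImplicit false

/-! Shared definitions for `{1,4}`-factors of 5-regular graphs with few odd three-edge cuts. -/

namespace Pool.Agent.R229.FR

/-- The number of edges of `G` between `C` and its complement. -/
noncomputable def cut {V : Type} (G : SimpleGraph V) (C : Set V) : ℕ :=
  {p : V × V | p.1 ∈ C ∧ p.2 ∉ C ∧ G.Adj p.1 p.2}.ncard

/-- `C` is an inclusion-minimal odd set with exactly one edge to its complement. -/
def MinOne {V : Type} (G : SimpleGraph V) (C : Set V) : Prop :=
  Odd C.ncard ∧ cut G C = 1 ∧ ∀ D : Set V, D ⊂ C → Odd D.ncard → cut G D ≠ 1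

/-- The inner ends of the cut edges of the minimal sets. -/
def ends {V : Type} (G : SimpleGraph V) : Set V :=
  {v | ∃ C, MinOne G C ∧ v ∈ C ∧ ∃ w, w ∉ C ∧ G.Adj v w}

/-- `G` with all edges between elements of `ends G` added. -/
def aug {V : Type} (G : SimpleGraph V) : SimpleGraph V where
  Adj u v := G.Adj u v ∨ (u ≠ v ∧ u ∈ ends G ∧ v ∈ ends G)
  symm := ⟨by
    intro u v h
    rcases h with h | h
    · exact Or.inl h.symm
    · exact Or.inr ⟨h.1.symm, h.2.2, h.2.1⟩⟩
  loopless := ⟨by
    intro u h
    rcases h with h | h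
    · exact G.irrefl h
    · exact h.1 rfl⟩

end Pool.Agent.R229.FR
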