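import Pool.Agent.R229.FR.Stm2

set_option autoImplicit false

/-! Part T2: the structure of a maximal barrier. -/

namespace Pool.Agent.R229.FR

namespace T2

open Classical

variable {V : Type} [Fintype V] {X : SimpleGraph V}

/-- `(A, 𝒦)` is optimal. -/
def Best (X : SimpleGraph V) (A : Set V) (𝒦 : Finset (Set V)) : Prop :=
  ∀ (A' : Set V) (𝒦' : Finset (Set V)), Barrier X Set.univ A' 𝒦' →
      (𝒦'.card : ℤ) - A'.ncard ≤ 𝒦.card - A.ncard ∧
      ((𝒦'.card : ℤ) - A'.ncard = 𝒦.card - A.ncard → A'.ncard ≤ A.ncard)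

theorem exists_best (X : SimpleGraph V) : ∃ (A : Set V) (𝒦 : Finset (Set V)),
    Barrier X Set.univ A 𝒦 ∧ Best X A 𝒦 := by
  let N : ℤ := Fintype.card V
  let f : Set V × Finset (Set V) → ℤ := fun p =>
    ((p.2.card : ℤ) - p.1.ncard) * (N + 1) + p.1.ncard
  let S : Set (Set V × Finset (Set V)) := {p | Barrier X Set.univ p.1 p.2}
  have hS : S.Nonempty := ⟨(∅, ∅), by
    refine ⟨Set.empty_subset _, ?_, ?_⟩ <;> simp⟩
  obtain ⟨⟨A, 𝒦⟩, hp, hmax⟩ := Set.exists_max_image S f (Set.toFinite S) hS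
  refine ⟨A, 𝒦, hp, fun A' 𝒦' h' => ?_⟩
  have h := hmax (A', 𝒦') h'
  have hA : (A.ncard : ℤ) ≤ N := by
    have h1 := Set.ncard_le_ncard (Set.subset_univ A) (Set.toFinite _)
    rw [Set.ncard_univ, Nat.card_eq_fintype_card] at h1
    show (A.ncard : ℤ) ≤ (Fintype.card V : ℤ)
    exact_mod_cast h1
  have hN : (0 : ℤ) ≤ N := Int.natCast_nonneg _
  have hA' : (0 : ℤ) ≤ A'.ncard := Int.natCast_nonneg _
  simp only [f] at h
  constructor
  · by_contra hlt
    have h2 : ((𝒦.card : ℤ) - A.ncard + 1) * (N + 1) ≤ ((𝒦'.card : ℤ) - A'.ncard) * (N + 1) :=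
      mul_le_mul_of_nonneg_right (by omega) (by omega)
    have h3 : ((𝒦.card : ℤ) - A.ncard + 1) * (N + 1) =
        ((𝒦.card : ℤ) - A.ncard) * (N + 1) + (N + 1) := by ring
    omega
  · intro heq
    rw [heq] at h
    omega

theorem nonempty_of_odd {K : Set V} (h : Odd K.ncard) : K.Nonempty := by
  rw [Set.nonempty_iff_ne_empty]
  rintro rfl
  simp at h

theorem crit (h1 : StmtT1) {A : Set V} {𝒦 : Finset (Set V)} (hB : Barrier X Set.univ A 𝒦)
    (hb : Best X A 𝒦) {K : Set V} (hK : K ∈ 𝒦) {x : V} (hx : x ∈ K) :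
    ∃ f : V → V, MatchedOn X (K \ {x}) f := by
  rcases h1 V X (K \ {x}) with h | ⟨A', 𝒦', ⟨c1, c2, c3⟩, c4, c5⟩
  · exact h
  exfalso
  obtain ⟨_, b2, b3⟩ := hB
  obtain ⟨_, k1, k2, k3⟩ := b2 K hK
  rw [Set.disjoint_left] at k1
  -- the parity
  have hKx : (K \ {x}).ncard + 1 = K.ncard := Set.ncard_sdiff_singleton_add_one hx (Set.toFinite _)
  have hpar : A'.ncard + 2 ≤ 𝒦'.card := by
    obtain ⟨m, hm⟩ := k2
    obtain ⟨n, hn⟩ := c5
    omega
  have hdis : ∀ L ∈ 𝒦.erase K, ∀ v ∈ L, v ∉ K := by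
    intro L hL v hv hvK
    have h2 := b3 L (Finset.mem_of_mem_erase hL) K hK (Finset.ne_of_mem_erase hL)
    exact (Set.disjoint_left.1 h2) hv hvK
  have hbar : Barrier X Set.univ (insert x (A ∪ A')) (𝒦.erase K ∪ 𝒦') := by
    refine ⟨Set.subset_univ _, ?_, ?_⟩
    · intro L hL
      rcases Finset.mem_union.1 hL with hL1 | hL1
      · obtain ⟨_, l1, l2, l3⟩ := b2 L (Finset.mem_of_mem_erase hL1)
        rw [Set.disjoint_left] at l1
        refine ⟨Set.subset_univ _, ?_, l2, ?_⟩
        · rw [Set.disjoint_left]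
          intro v hv hv2
          rcases hv2 with rfl | hv2 | hv2
          · exact hdis L hL1 _ hv hx
          · exact l1 hv hv2
          · exact hdis L hL1 _ hv (c1 hv2).1
        · intro u hu w hw huw
          rcases l3 u hu w hw huw with h | h
          · exact Or.inl h
          · exact Or.inr (Or.inr (Or.inl h))
      · obtain ⟨l0, l1, l2, l3⟩ := c2 L hL1
        rw [Set.disjoint_left] at l1
        refine ⟨Set.subset_univ _, ?_, l2, ?_⟩
        · rw [Set.disjoint_left]
          intro v hv hv2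
          rcases hv2 with hv2 | hv2 | hv2
          · exact (l0 hv).2 hv2
          · exact k1 (l0 hv).1 hv2
          · exact l1 hv hv2
        · intro u hu w hw huw
          rcases k3 u (l0 hu).1 w hw huw with h | h
          · by_cases hwx : w = x
            · exact Or.inr (Or.inl hwx)
            · rcases l3 u hu w ⟨h, hwx⟩ huw with h | h
              · exact Or.inl h
              · exact Or.inr (Or.inr (Or.inr h))
          · exact Or.inr (Or.inr (Or.inl h))
    · intro L hL M hM hLM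
      rcases Finset.mem_union.1 hL with hL1 | hL1
      · rcases Finset.mem_union.1 hM with hM1 | hM1
        · exact b3 L (Finset.mem_of_mem_erase hL1) M (Finset.mem_of_mem_erase hM1) hLM
        · rw [Set.disjoint_left]
          intro v hv hv2
          exact hdis L hL1 v hv ((c2 M hM1).1 hv2).1
      · rcases Finset.mem_union.1 hM with hM1 | hM1
        · rw [Set.disjoint_left]
          intro v hv hv2
          exact hdis M hM1 v hv2 ((c2 L hL1).1 hv).1
        · exact c3 L hL1 M hM1 hLM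
  have hd1 : Disjoint (𝒦.erase K) 𝒦' := by
    rw [Finset.disjoint_left]
    intro L hL hL2
    obtain ⟨v, hv⟩ := nonempty_of_odd (c2 L hL2).2.2.1
    exact hdis L hL v hv ((c2 L hL2).1 hv).1
  have hc1 : (𝒦.erase K ∪ 𝒦').card = 𝒦.card - 1 + 𝒦'.card := by
    rw [Finset.card_union_of_disjoint hd1, Finset.card_erase_of_mem hK]
  have hKp : 0 < 𝒦.card := Finset.card_pos.2 ⟨K, hK⟩
  have hd2 : Disjoint A A' := by
    rw [Set.disjoint_left]
    intro v hv hv2
    exact k1 (c1 hv2).1 hv
  have hxA : x ∉ A ∪ A' := by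
    rintro (h | h)
    · exact k1 hx h
    · exact (c1 h).2 rfl
  have hc2 : (insert x (A ∪ A')).ncard = A.ncard + A'.ncard + 1 := by
    rw [Set.ncard_insert_of_notMem hxA (Set.toFinite _),
      Set.ncard_union_eq hd2 (Set.toFinite _) (Set.toFinite _)]
  obtain ⟨g1, g2⟩ := hb _ _ hbar
  rw [hc1, hc2] at g1 g2
  omega

theorem rest (h1 : StmtT1) {A : Set V} {𝒦 : Finset (Set V)} (hB : Barrier X Set.univ A 𝒦)
    (hb : Best X A 𝒦) : ∃ f : V → V, MatchedOn X {v | v ∉ A ∧ ∀ K ∈ 𝒦, v ∉ K} f := by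
  rcases h1 V X {v | v ∉ A ∧ ∀ K ∈ 𝒦, v ∉ K} with h | ⟨A', 𝒦', ⟨c1, c2, c3⟩, c4, c5⟩
  · exact h
  exfalso
  obtain ⟨_, b2, b3⟩ := hB
  have hbar : Barrier X Set.univ (A ∪ A') (𝒦 ∪ 𝒦') := by
    refine ⟨Set.subset_univ _, ?_, ?_⟩
    · intro L hL
      rcases Finset.mem_union.1 hL with hL1 | hL1
      · obtain ⟨_, l1, l2, l3⟩ := b2 L hL1
        rw [Set.disjoint_left] at l1
        refine ⟨Set.subset_univ _, ?_, l2, ?_⟩
        · rw [Set.disjoint_left]
          intro v hv hv2
          rcases hv2 with hv2 | hv2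
          · exact l1 hv hv2
          · exact (c1 hv2).2 L hL1 hv
        · intro u hu w hw huw
          rcases l3 u hu w hw huw with h | h
          · exact Or.inl h
          · exact Or.inr (Or.inl h)
      · obtain ⟨l0, l1, l2, l3⟩ := c2 L hL1
        rw [Set.disjoint_left] at l1
        refine ⟨Set.subset_univ _, ?_, l2, ?_⟩
        · rw [Set.disjoint_left]
          intro v hv hv2
          rcases hv2 with hv2 | hv2
          · exact (l0 hv).1 hv2
          · exact l1 hv hv2
        · intro u hu w hw huw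
          by_cases hwA : w ∈ A
          · exact Or.inr (Or.inl hwA)
          · have hwK : ∀ M ∈ 𝒦, w ∉ M := by
              intro M hM hwM
              rcases (b2 M hM).2.2.2 w hwM u (Set.mem_univ _) huw.symm with h | h
              · exact (l0 hu).2 M hM h
              · exact (l0 hu).1 h
            rcases l3 u hu w ⟨hwA, hwK⟩ huw with h | h
            · exact Or.inl h
            · exact Or.inr (Or.inr h)
    · intro L hL M hM hLM
      rcases Finset.mem_union.1 hL with hL1 | hL1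
      · rcases Finset.mem_union.1 hM with hM1 | hM1
        · exact b3 L hL1 M hM1 hLM
        · rw [Set.disjoint_left]
          intro v hv hv2
          exact ((c2 M hM1).1 hv2).2 L hL1 hv
      · rcases Finset.mem_union.1 hM with hM1 | hM1
        · rw [Set.disjoint_left]
          intro v hv hv2
          exact ((c2 L hL1).1 hv).2 M hM1 hv2
        · exact c3 L hL1 M hM1 hLM
  have hd1 : Disjoint 𝒦 𝒦' := by
    rw [Finset.disjoint_left]
    intro L hL hL2
    obtain ⟨v, hv⟩ := nonempty_of_odd (c2 L hL2).2.2.1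
    exact ((c2 L hL2).1 hv).2 L hL hv
  have hd2 : Disjoint A A' := by
    rw [Set.disjoint_left]
    intro v hv hv2
    exact (c1 hv2).1 hv
  obtain ⟨g1, g2⟩ := hb _ _ hbar
  rw [Finset.card_union_of_disjoint hd1,
    Set.ncard_union_eq hd2 (Set.toFinite _) (Set.toFinite _)] at g1
  omega

theorem hall {A : Set V} {𝒦 : Finset (Set V)} (hB : Barrier X Set.univ A 𝒦)
    (hb : Best X A 𝒦) :
    ∃ φ : V → Set V, (∀ a ∈ A, φ a ∈ 𝒦 ∧ ∃ k ∈ φ a, X.Adj a k) ∧ Set.InjOn φ A := by
  obtain ⟨_, b2, b3⟩ := hB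
  let t : A → Finset (Set V) := fun a => 𝒦.filter (fun K => ∃ k ∈ K, X.Adj a k)
  have hall : ∀ s : Finset A, s.card ≤ (s.biUnion t).card := by
    intro s
    by_contra hlt
    let X₀ : Set V := ((s.image (fun a : A => (a : V)) : Finset V) : Set V)
    have hX₀ : X₀ ⊆ A := by
      intro v hv
      obtain ⟨a, _, rfl⟩ := Finset.mem_image.1 (Finset.mem_coe.1 hv)
      exact a.2
    have hcX : X₀.ncard = s.card := by
      rw [Set.ncard_coe_finset, Finset.card_image_of_injective _ Subtype.val_injective]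
    have hsub : s.biUnion t ⊆ 𝒦 := by
      intro K hK
      obtain ⟨a, _, ha⟩ := Finset.mem_biUnion.1 hK
      exact (Finset.mem_filter.1 ha).1
    have hbar : Barrier X Set.univ (A \ X₀) (𝒦 \ s.biUnion t) := by
      refine ⟨Set.subset_univ _, ?_, ?_⟩
      · intro L hL
        obtain ⟨hL1, hL2⟩ := Finset.mem_sdiff.1 hL
        obtain ⟨_, l1, l2, l3⟩ := b2 L hL1
        refine ⟨Set.subset_univ _, l1.mono_right Set.sdiff_subset, l2, ?_⟩
        intro u hu w hw huw
        rcases l3 u hu w hw huw with h | h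
        · exact Or.inl h
        · refine Or.inr ⟨h, fun hw0 => hL2 ?_⟩
          obtain ⟨a, ha, hav⟩ := Finset.mem_image.1 (Finset.mem_coe.1 hw0)
          refine Finset.mem_biUnion.2 ⟨a, ha, Finset.mem_filter.2 ⟨hL1, u, hu, ?_⟩⟩
          rw [hav]
          exact huw.symm
      · intro L hL M hM hLM
        exact b3 L (Finset.mem_sdiff.1 hL).1 M (Finset.mem_sdiff.1 hM).1 hLM
    obtain ⟨g1, g2⟩ := hb _ _ hbar
    have hc1 : (𝒦 \ s.biUnion t).card + (s.biUnion t).card = 𝒦.card :=
      Finset.card_sdiff_add_card_eq_card hsub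
    have hc2 : (A \ X₀).ncard + X₀.ncard = A.ncard :=
      Set.ncard_sdiff_add_ncard_of_subset hX₀ (Set.toFinite _)
    omega
  obtain ⟨f, hf1, hf2⟩ := (Finset.all_card_le_biUnion_card_iff_exists_injective t).1 hall
  refine ⟨fun v => if h : v ∈ A then f ⟨v, h⟩ else ∅, ?_, ?_⟩
  · intro a ha
    simp only [dif_pos ha]
    have h2 := Finset.mem_filter.1 (hf2 ⟨a, ha⟩)
    exact ⟨h2.1, h2.2⟩
  · intro a ha b hb2 hab
    simp only [dif_pos ha, dif_pos hb2] at hab
    have := hf1 hab
    exact congrArg Subtype.val this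

end T2

theorem t2 (h1 : StmtT1) : StmtT2 := by
  intro V _ X
  obtain ⟨A, 𝒦, hB, hb⟩ := T2.exists_best X
  exact ⟨A, 𝒦, hB, fun K hK x hx => T2.crit h1 hB hb hK hx, T2.rest h1 hB hb, T2.hall hB hb⟩

end Pool.Agent.R229.FR
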