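import Pool.Agent.R229.FR.Stm2

set_option autoImplicit false

/-! Part T3 of project FR2 (Hall argument). `StmtT3` needs `V` to be nonempty (there is no function
`Set V → V` otherwise), so `t3` is proved for `StmtT3x`, which has the extra `[Nonempty V]`. -/

namespace Pool.Agent.R229.FR

open SimpleGraph Finset

/-- `StmtT3` for nonempty `V`. -/
def StmtT3x : Prop := ∀ (V : Type) [Fintype V] [Nonempty V] (G : SimpleGraph V),
  (∀ v, (G.neighborSet v).ncard = 5) →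
  (∀ C₁ C₂ C₃ : Set V, Odd C₁.ncard → Odd C₂.ncard → Odd C₃.ncard →
    Disjoint C₁ C₂ → Disjoint C₁ C₃ → Disjoint C₂ C₃ →
    cut G C₁ = 3 → cut G C₂ = 3 → cut G C₃ = 3 → ¬ FactorOn G C₁ → ¬ FactorOn G C₂ →
    ¬ FactorOn G C₃ → False) →
  (∀ C : Set V, Odd C.ncard → Odd (cut G C)) →
  (∀ C : Set V, Odd C.ncard → cut G C = 1 → ∃ D, D ⊆ C ∧ MinOne G D) →
  ∀ (A : Set V) (𝒦 : Finset (Set V)), Barrier (aug G) Set.univ A 𝒦 →
  ∃ g : Set V → V,
    (∀ K ∈ 𝒦, Disjoint K (ends G) → ¬ FactorOn G K → g K ∈ A ∧ ∃ k ∈ K, G.Adj (g K) k) ∧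
    Set.InjOn g {K | K ∈ 𝒦 ∧ Disjoint K (ends G) ∧ ¬ FactorOn G K}

/-- The count: `5 |𝒳| ≤ 5 |N| + 4`. -/
theorem T3_count (V : Type) [Fintype V] [DecidableEq V] (G : SimpleGraph V)
    (hreg : ∀ v, (G.neighborSet v).ncard = 5)
    (h3 : ∀ C₁ C₂ C₃ : Set V, Odd C₁.ncard → Odd C₂.ncard → Odd C₃.ncard →
      Disjoint C₁ C₂ → Disjoint C₁ C₃ → Disjoint C₂ C₃ →
      cut G C₁ = 3 → cut G C₂ = 3 → cut G C₃ = 3 → ¬ FactorOn G C₁ → ¬ FactorOn G C₂ →
      ¬ FactorOn G C₃ → False)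
    (hA1 : ∀ C : Set V, Odd C.ncard → Odd (cut G C))
    (hA3 : ∀ C : Set V, Odd C.ncard → cut G C = 1 → ∃ D, D ⊆ C ∧ MinOne G D)
    (A : Set V) (𝒦 : Finset (Set V)) (hB : Barrier (aug G) Set.univ A 𝒦)
    (𝒳 : Finset (Set V)) (hX : ∀ K ∈ 𝒳, K ∈ 𝒦 ∧ Disjoint K (ends G) ∧ ¬ FactorOn G K)
    (N : Finset V) (hN : ∀ K ∈ 𝒳, ∀ a ∈ A, (∃ k ∈ K, G.Adj a k) → a ∈ N) :
    𝒳.card ≤ N.card := by
  classical
  obtain ⟨-, hK, hdj⟩ := hB
  have hodd : ∀ K ∈ 𝒳, Odd K.ncard := fun K h => (hK K (hX K h).1).2.2.1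
  have hdisj : ∀ K ∈ 𝒳, ∀ L ∈ 𝒳, K ≠ L → Disjoint K L :=
    fun K h L h' hne => hdj K (hX K h).1 L (hX L h').1 hne
  let F : Set V → Finset (V × V) := fun K =>
    Finset.univ.filter (fun p : V × V => p.1 ∈ K ∧ p.2 ∉ K ∧ G.Adj p.1 p.2)
  have hF : ∀ K, cut G K = (F K).card := by
    intro K
    unfold cut
    rw [← Set.ncard_coe_finset]
    congr 1
    ext p
    simp [F]
  let P : Finset (V × V) := Finset.univ.filter (fun p : V × V => p.2 ∈ N ∧ G.Adj p.1 p.2)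
  have hFP : ∀ K ∈ 𝒳, F K ⊆ P := by
    intro K hKX p hp
    simp only [F, P, Finset.mem_filter, Finset.mem_univ, true_and] at hp ⊢
    refine ⟨?_, hp.2.2⟩
    rcases (hK K (hX K hKX).1).2.2.2 p.1 hp.1 p.2 (Set.mem_univ _) (Or.inl hp.2.2) with h | h
    · exact absurd h hp.2.1
    · exact hN K hKX p.2 h ⟨p.1, hp.1, hp.2.2.symm⟩
  have hFd : ∀ K ∈ 𝒳, ∀ K' ∈ 𝒳, K ≠ K' → Disjoint (F K) (F K') := by
    intro K h K' h' hne
    rw [Finset.disjoint_left]
    intro p hp hp'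
    simp only [F, Finset.mem_filter, Finset.mem_univ, true_and] at hp hp'
    exact (Set.disjoint_left.mp (hdisj K h K' h' hne)) hp.1 hp'.1
  have hsum : ∑ K ∈ 𝒳, cut G K ≤ P.card := by
    calc ∑ K ∈ 𝒳, cut G K = ∑ K ∈ 𝒳, (F K).card := Finset.sum_congr rfl fun K _ => hF K
      _ = (𝒳.biUnion F).card := (Finset.card_biUnion hFd).symm
      _ ≤ P.card := Finset.card_le_card (Finset.biUnion_subset.mpr hFP)
  have hP : P.card ≤ 5 * N.card := by
    apply Finset.card_le_mul_card_image_of_maps_to (f := Prod.snd)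
    · intro p hp
      simp only [P, Finset.mem_filter, Finset.mem_univ, true_and] at hp
      exact hp.1
    · intro s hs
      have h2 : (P.filter (fun p => p.2 = s)) ⊆
          ((Set.toFinite (G.neighborSet s)).toFinset).image (fun v => (v, s)) := by
        intro p hp
        simp only [P, Finset.mem_filter, Finset.mem_univ, true_and] at hp
        rw [Finset.mem_image]
        refine ⟨p.1, ?_, ?_⟩
        · rw [Set.Finite.mem_toFinset, SimpleGraph.mem_neighborSet, ← hp.2]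
          exact hp.1.2.symm
        · rw [← hp.2]
      calc (P.filter (fun p => p.2 = s)).card ≤ _ := Finset.card_le_card h2
        _ ≤ ((Set.toFinite (G.neighborSet s)).toFinset).card := Finset.card_image_le
        _ = (G.neighborSet s).ncard :=
          (Set.ncard_eq_toFinset_card _ (Set.toFinite (G.neighborSet s))).symm
        _ ≤ 5 := (hreg s).le
  have hcut : ∀ K ∈ 𝒳, Odd (cut G K) ∧ cut G K ≠ 1 := by
    intro K h
    refine ⟨hA1 _ (hodd K h), fun h1 => ?_⟩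
    obtain ⟨E, hEC, hE⟩ := hA3 _ (hodd K h) h1
    have hne : {p : V × V | p.1 ∈ E ∧ p.2 ∉ E ∧ G.Adj p.1 p.2}.Nonempty := by
      rw [← Set.ncard_pos]
      have := hE.2.1
      unfold cut at this
      omega
    obtain ⟨p, hp⟩ := hne
    exact Set.disjoint_left.mp (hX K h).2.1 (hEC hp.1) ⟨E, hE, hp.1, p.2, hp.2.1, hp.2.2⟩
  have h32 : (𝒳.filter (fun K => cut G K = 3)).card ≤ 2 := by
    by_contra hcon
    push Not at hcon
    obtain ⟨K1, h1, K2, h2, K3, h4, h12, h13, h23⟩ := Finset.two_lt_card.mp hcon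
    rw [Finset.mem_filter] at h1 h2 h4
    exact h3 K1 K2 K3 (hodd _ h1.1) (hodd _ h2.1) (hodd _ h4.1)
      (hdisj _ h1.1 _ h2.1 h12) (hdisj _ h1.1 _ h4.1 h13) (hdisj _ h2.1 _ h4.1 h23) h1.2 h2.2 h4.2
      (hX _ h1.1).2.2 (hX _ h2.1).2.2 (hX _ h4.1).2.2
  have h5 : ∑ K ∈ 𝒳, 5 ≤ ∑ K ∈ 𝒳, (cut G K + if cut G K = 3 then 2 else 0) := by
    refine Finset.sum_le_sum fun K hK => ?_
    obtain ⟨ho, hn⟩ := hcut K hK
    rw [Nat.odd_iff] at ho
    split_ifs with h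
    · omega
    · omega
  rw [Finset.sum_const, smul_eq_mul, Finset.sum_add_distrib, ← Finset.sum_filter,
    Finset.sum_const, smul_eq_mul] at h5
  omega

theorem t3 : StmtT3x := by
  intro V _ _ G hreg h3 hA1 hA3 A 𝒦 hB
  classical
  let I := {K : Set V // K ∈ 𝒦 ∧ Disjoint K (ends G) ∧ ¬ FactorOn G K}
  let t : I → Finset V := fun K => Finset.univ.filter (fun a => a ∈ A ∧ ∃ k ∈ K.1, G.Adj a k)
  have hall : ∀ s : Finset I, s.card ≤ (s.biUnion t).card := by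
    intro s
    have h := T3_count V G hreg h3 hA1 hA3 A 𝒦 hB (s.map (Function.Embedding.subtype _))
      (by
        intro K hK
        rw [Finset.mem_map] at hK
        obtain ⟨x, -, rfl⟩ := hK
        exact x.2)
      (s.biUnion t)
      (by
        intro K hK a ha hk
        rw [Finset.mem_map] at hK
        obtain ⟨x, hx, rfl⟩ := hK
        rw [Finset.mem_biUnion]
        refine ⟨x, hx, ?_⟩
        simp only [t, Finset.mem_filter, Finset.mem_univ, true_and]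
        exact ⟨ha, hk⟩)
    rwa [Finset.card_map] at h
  obtain ⟨f, hfi, hf⟩ := (Finset.all_card_le_biUnion_card_iff_exists_injective t).mp hall
  refine ⟨fun K => if h : K ∈ 𝒦 ∧ Disjoint K (ends G) ∧ ¬ FactorOn G K then f ⟨K, h⟩
    else Classical.arbitrary V, ?_, ?_⟩
  · intro K hK hd hF
    have h : K ∈ 𝒦 ∧ Disjoint K (ends G) ∧ ¬ FactorOn G K := ⟨hK, hd, hF⟩
    simp only [dif_pos h]
    have := hf ⟨K, h⟩
    simp only [t, Finset.mem_filter, Finset.mem_univ, true_and] at this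
    exact this
  · intro K hK L hL hKL
    change K ∈ 𝒦 ∧ Disjoint K (ends G) ∧ ¬ FactorOn G K at hK
    change L ∈ 𝒦 ∧ Disjoint L (ends G) ∧ ¬ FactorOn G L at hL
    simp only [dif_pos hK, dif_pos hL] at hKL
    have := hfi hKL
    exact congrArg Subtype.val this

end Pool.Agent.R229.FR
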