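import Pool.Agent.R229.FR.Defs

set_option autoImplicit false

/-! Statements of the parts of the stronger form (project FR2, MP_39c6f6_co). -/

namespace Pool.Agent.R229.FR

/-- `A` and the odd sets `K ∈ 𝒦` inside `T`; inside `T`, all neighbours of `K` lie in `K ∪ A`. -/
def Barrier {V : Type} (X : SimpleGraph V) (T A : Set V) (𝒦 : Finset (Set V)) : Prop :=
  A ⊆ T ∧ (∀ K ∈ 𝒦, K ⊆ T ∧ Disjoint K A ∧ Odd K.ncard ∧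
    ∀ u ∈ K, ∀ w ∈ T, X.Adj u w → w ∈ K ∨ w ∈ A) ∧
  (∀ K ∈ 𝒦, ∀ L ∈ 𝒦, K ≠ L → Disjoint K L)

/-- `T` is perfectly matched inside `X` by `f`. -/
def MatchedOn {V : Type} (X : SimpleGraph V) (T : Set V) (f : V → V) : Prop :=
  ∀ v ∈ T, f v ∈ T ∧ X.Adj v (f v) ∧ f (f v) = v

/-- `C` has a `{1,4}`-factor of the induced subgraph. -/
def FactorOn {V : Type} (G : SimpleGraph V) (C : Set V) : Prop :=
  ∃ F : SimpleGraph V, F ≤ G ∧ (∀ u v, F.Adj u v → u ∈ C ∧ v ∈ C) ∧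
    ∀ v ∈ C, (F.neighborSet v).ncard = 1 ∨ (F.neighborSet v).ncard = 4

/-- T1: Tutte's theorem on a subset. -/
def StmtT1 : Prop := ∀ (V : Type) [Fintype V] (X : SimpleGraph V) (T : Set V),
  (∃ f : V → V, MatchedOn X T f) ∨
  ∃ (A : Set V) (𝒦 : Finset (Set V)), Barrier X T A 𝒦 ∧ A.ncard + 1 ≤ 𝒦.card ∧
    Even (A.ncard + 𝒦.card + T.ncard)

/-- T2: the structure of a maximal barrier. -/
def StmtT2 : Prop := ∀ (V : Type) [Fintype V] (X : SimpleGraph V),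
  ∃ (A : Set V) (𝒦 : Finset (Set V)), Barrier X Set.univ A 𝒦 ∧
    (∀ K ∈ 𝒦, ∀ x ∈ K, ∃ f : V → V, MatchedOn X (K \ {x}) f) ∧
    (∃ f : V → V, MatchedOn X {v | v ∉ A ∧ ∀ K ∈ 𝒦, v ∉ K} f) ∧
    (∃ φ : V → Set V, (∀ a ∈ A, φ a ∈ 𝒦 ∧ ∃ k ∈ φ a, X.Adj a k) ∧ Set.InjOn φ A)

/-- T3: the sets which have to be covered can be matched into `A`. -/
def StmtT3 : Prop := ∀ (V : Type) [Fintype V] (G : SimpleGraph V),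
  (∀ v, (G.neighborSet v).ncard = 5) →
  (∀ C₁ C₂ C₃ : Set V, Odd C₁.ncard → Odd C₂.ncard → Odd C₃.ncard →
    Disjoint C₁ C₂ → Disjoint C₁ C₃ → Disjoint C₂ C₃ →
    cut G C₁ = 3 → cut G C₂ = 3 → cut G C₃ = 3 → ¬ FactorOn G C₁ → ¬ FactorOn G C₂ →
    ¬ FactorOn G C₃ → False) →
  (∀ C : Set V, Odd C.ncard → Odd (cut G C)) →
  (∀ C : Set V, Odd C.ncard → cut G C = 1 → ∃ D, D ⊆ C ∧ MinOne G D) →
  ∀ (A : Set V) (𝒦 : Finset (Set V)), Barrier (aug G) Set.univ A 𝒦 →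
  ∃ g : Set V → V,
    (∀ K ∈ 𝒦, Disjoint K (ends G) → ¬ FactorOn G K → g K ∈ A ∧ ∃ k ∈ K, G.Adj (g K) k) ∧
    Set.InjOn g {K | K ∈ 𝒦 ∧ Disjoint K (ends G) ∧ ¬ FactorOn G K}

/-- T4: Mendelsohn–Dulmage. -/
def StmtT4 : Prop := ∀ (α β : Type) (A : Set α) (D : Set β) (R : α → β → Prop)
  (φ : α → β) (g : β → α), (∀ a ∈ A, R a (φ a)) → Set.InjOn φ A →
  (∀ b ∈ D, g b ∈ A ∧ R (g b) b) → Set.InjOn g D →
  ∃ ψ : α → β, (∀ a ∈ A, R a (ψ a)) ∧ Set.InjOn ψ A ∧ ∀ b ∈ D, ∃ a ∈ A, ψ a = b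

/-- T5: assembling a subgraph with degrees 1, 4, and 0 only at `ends G`. -/
def StmtT5 : Prop := ∀ (V : Type) [Fintype V] (G : SimpleGraph V)
  (A : Set V) (𝒦 : Finset (Set V)), Barrier (aug G) Set.univ A 𝒦 →
  (∀ K ∈ 𝒦, ∀ x ∈ K, ∃ f : V → V, MatchedOn (aug G) (K \ {x}) f) →
  (∃ f : V → V, MatchedOn (aug G) {v | v ∉ A ∧ ∀ K ∈ 𝒦, v ∉ K} f) →
  ∀ ψ : V → Set V, (∀ a ∈ A, ψ a ∈ 𝒦 ∧ ∃ k ∈ ψ a, (aug G).Adj a k) → Set.InjOn ψ A →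
  (∀ K ∈ 𝒦, (∀ a ∈ A, ψ a ≠ K) → (∃ x ∈ K, x ∈ ends G) ∨ FactorOn G K) →
  ∃ H₀ : SimpleGraph V, H₀ ≤ G ∧ ∀ v, (H₀.neighborSet v).ncard = 1 ∨
    (H₀.neighborSet v).ncard = 4 ∨ (v ∈ ends G ∧ (H₀.neighborSet v).ncard = 0)

/-- T6: flipping. -/
def StmtT6 : Prop := ∀ (V : Type) [Fintype V] (G : SimpleGraph V),
  (∀ v, (G.neighborSet v).ncard = 5) →
  (∀ C D : Set V, MinOne G C → MinOne G D → C ≠ D → Disjoint C D) →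
  ∀ H₀ : SimpleGraph V, H₀ ≤ G → (∀ v, (H₀.neighborSet v).ncard = 1 ∨
    (H₀.neighborSet v).ncard = 4 ∨ (v ∈ ends G ∧ (H₀.neighborSet v).ncard = 0)) →
  ∃ H ≤ G, ∀ v, (H.neighborSet v).ncard = 1 ∨ (H.neighborSet v).ncard = 4

end Pool.Agent.R229.FR
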