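import Pool.Agent.R229.FR.C
import Pool.Agent.R229.FR.Stm2

set_option autoImplicit false

/-! Flipping inside the minimal sets. -/

namespace Pool.Agent.R229.FR

open Classical

theorem t6 : StmtT6 := by
  intro V _ G h5 hdisj H₀ hH₀ hdeg
  have huniq : ∀ C D : Set V, MinOne G C → MinOne G D → ∀ v, v ∈ C → v ∈ D → C = D := by
    intro C D hC hD v hvC hvD
    by_contra hCD
    exact Set.disjoint_left.mp (hdisj C D hC hD hCD) hvC hvD
  let Bad : Set V → Prop := fun C => MinOne G C ∧
    ∃ a ∈ C, (∃ w, w ∉ C ∧ G.Adj a w) ∧ ∀ w, ¬ H₀.Adj a w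
  let H : SimpleGraph V :=
    { Adj := fun u v => G.Adj u v ∧ ((∃ C, Bad C ∧ u ∈ C ∧ v ∈ C ∧ ¬ H₀.Adj u v) ∨
        ((¬ ∃ C, Bad C ∧ u ∈ C ∧ v ∈ C) ∧ H₀.Adj u v))
      symm := ⟨by
        rintro u v ⟨h1, h2⟩
        refine ⟨h1.symm, ?_⟩
        rcases h2 with ⟨C, hC, hu, hv, hfuv⟩ | ⟨hno, hfuv⟩
        · exact Or.inl ⟨C, hC, hv, hu, fun h => hfuv h.symm⟩
        · refine Or.inr ⟨?_, hfuv.symm⟩
          rintro ⟨C, hC, hv, hu⟩
          exact hno ⟨C, hC, hu, hv⟩⟩
      loopless := ⟨by
        rintro u ⟨h1, _⟩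
        exact G.irrefl h1⟩ }
  refine ⟨H, fun u v h => h.1, ?_⟩
  intro v
  by_cases hv : ∃ C, Bad C ∧ v ∈ C
  · obtain ⟨C, hC, hvC⟩ := hv
    obtain ⟨a, b, ha, hb, hab, hu⟩ := hC.1.out
    obtain ⟨a', ha', ⟨w', hw', haw'⟩, hno⟩ := hC.2
    have haa' : a' = a := (hu a' ha' w' hw' haw').1
    subst haa'
    by_cases hva : v = a'
    · subst hva
      right
      have hset : H.neighborSet v = G.neighborSet v \ {b} := by
        ext w
        simp only [SimpleGraph.mem_neighborSet, Set.mem_sdiff, Set.mem_singleton_iff]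
        constructor
        · rintro ⟨h1, h2⟩
          refine ⟨h1, ?_⟩
          rintro rfl
          rcases h2 with ⟨D, hD, hvD, hwD, _⟩ | ⟨_, hfv⟩
          · have : C = D := huniq C D hC.1 hD.1 v ha hvD
            subst this
            exact hb hwD
          · exact hno _ hfv
        · rintro ⟨h1, h2⟩
          have hwC : w ∈ C := by
            by_contra hw
            exact h2 (hu v ha w hw h1).2
          exact ⟨h1, Or.inl ⟨C, hC, ha, hwC, hno w⟩⟩
      rw [hset, Set.ncard_sdiff_singleton_of_mem (by exact hab), h5 v]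
    · have hset : H.neighborSet v = G.neighborSet v \ H₀.neighborSet v := by
        ext w
        simp only [SimpleGraph.mem_neighborSet, Set.mem_sdiff]
        constructor
        · rintro ⟨h2, h3⟩
          refine ⟨h2, ?_⟩
          have hwC : w ∈ C := by
            by_contra hw
            exact hva (hu v hvC w hw h2).1
          rcases h3 with ⟨D, hD, hvD, hwD, h4⟩ | ⟨h4, _⟩
          · exact h4
          · exact absurd ⟨C, hC, hvC, hwC⟩ h4
        · rintro ⟨h2, h3⟩
          have hwC : w ∈ C := by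
            by_contra hw
            exact hva (hu v hvC w hw h2).1
          exact ⟨h2, Or.inl ⟨C, hC, hvC, hwC, h3⟩⟩
      have hsub : H₀.neighborSet v ⊆ G.neighborSet v := fun w hw => hH₀ hw
      have hcard : (G.neighborSet v \ H₀.neighborSet v).ncard =
          (G.neighborSet v).ncard - (H₀.neighborSet v).ncard :=
        Set.ncard_sdiff hsub (Set.toFinite _)
      rw [hset, hcard, h5 v]
      rcases hdeg v with h | h | ⟨h, _⟩
      · right; omega
      · left; omega
      · exfalso
        obtain ⟨D, hD, hvD, w, hw, hvw⟩ := h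
        have : C = D := huniq C D hC.1 hD v hvC hvD
        subst this
        exact hva (hu v hvC w hw hvw).1
  · have hset : H.neighborSet v = H₀.neighborSet v := by
      ext w
      simp only [SimpleGraph.mem_neighborSet]
      constructor
      · rintro ⟨_, h3⟩
        rcases h3 with ⟨D, hD, hvD, _, _⟩ | ⟨_, h4⟩
        · exact absurd ⟨D, hD, hvD⟩ hv
        · exact h4
      · intro h
        refine ⟨hH₀ h, Or.inr ⟨?_, h⟩⟩
        rintro ⟨C, hC, hvC, _⟩
        exact hv ⟨C, hC, hvC⟩
    rw [hset]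
    rcases hdeg v with h | h | ⟨h, h0⟩
    · exact Or.inl h
    · exact Or.inr h
    · exfalso
      obtain ⟨C, hC, hvC, w, hw, hvw⟩ := h
      apply hv
      refine ⟨C, ⟨hC, v, hvC, ⟨w, hw, hvw⟩, ?_⟩, hvC⟩
      intro u hu
      have hemp : H₀.neighborSet v = ∅ := (Set.ncard_eq_zero (Set.toFinite _)).mp h0
      have : u ∈ H₀.neighborSet v := hu
      rw [hemp] at this
      exact this

end Pool.Agent.R229.FR
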