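import Pool.Agent.R229.FR.A
import Pool.Agent.R229.FR.T1
import Pool.Agent.R229.FR.T2
import Pool.Agent.R229.FR.T3
import Pool.Agent.R229.FR.T4
import Pool.Agent.R229.FR.T5
import Pool.Agent.R229.FR.T6

set_option autoImplicit false

namespace Pool.Agent.R229.FR

theorem main3 {V : Type} [Fintype V] (G : SimpleGraph V) (h5 : ∀ v, (G.neighborSet v).ncard = 5)
    (h3 : ∀ C₁ C₂ C₃ : Set V, Odd C₁.ncard → Odd C₂.ncard → Odd C₃.ncard →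
      Disjoint C₁ C₂ → Disjoint C₁ C₃ → Disjoint C₂ C₃ →
      cut G C₁ = 3 → cut G C₂ = 3 → cut G C₃ = 3 → ¬ FactorOn G C₁ → ¬ FactorOn G C₂ →
      ¬ FactorOn G C₃ → False) :
    ∃ H ≤ G, ∀ v, (H.neighborSet v).ncard = 1 ∨ (H.neighborSet v).ncard = 4 := by
  classical
  rcases isEmpty_or_nonempty V with hV | hV
  · exact ⟨⊥, bot_le, fun v => (hV.false v).elim⟩
  obtain ⟨A, 𝒦, hB, hcrit, hrest, φ, hφ, hφi⟩ := t2 t1 V (aug G)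
  obtain ⟨g, hg, hgi⟩ := t3 V G h5 h3 (a1 V G h5) (fun C => a3 V G C) A 𝒦 hB
  obtain ⟨ψ, hψ, hψi, hψD⟩ := t4 V (Set V) A
    {K | K ∈ 𝒦 ∧ Disjoint K (ends G) ∧ ¬ FactorOn G K}
    (fun a K => K ∈ 𝒦 ∧ ∃ k ∈ K, (aug G).Adj a k) φ g hφ hφi
    (by
      rintro K ⟨hK, hd, hn⟩
      obtain ⟨h1, k, hk, hadj⟩ := hg K hK hd hn
      exact ⟨h1, hK, k, hk, Or.inl hadj⟩) hgi
  obtain ⟨H₀, hH₀, hdeg⟩ := t5 V G A 𝒦 hB hcrit hrest ψ hψ hψi (by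
    intro K hK hun
    by_contra hno
    push Not at hno
    obtain ⟨h1, h2⟩ := hno
    obtain ⟨a, ha, haK⟩ := hψD K ⟨hK, Set.disjoint_left.mpr (fun x hx => h1 x hx), h2⟩
    exact hun a ha haK)
  exact t6 V G h5 (a2 V G h5) H₀ hH₀ hdeg

end Pool.Agent.R229.FR
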