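import Pool.Agent.R229.FR.Stm3

set_option autoImplicit false

/-! U10: assembling `C` from `D` and `C \ D`. -/

namespace Pool.Agent.R229.FR

theorem u10 : StmtU10 := by
  classical
  intro V _ G C D hDC hR H₀ hH₀ hin hdeg
  obtain ⟨Z, hZ⟩ : ∃ Z : Set V, Z = {y | y ∈ C ∧ y ∉ D ∧ (H₀.neighborSet y).ncard = 0} := ⟨_, rfl⟩
  have hZm : ∀ y, y ∈ Z ↔ y ∈ C ∧ y ∉ D ∧ (H₀.neighborSet y).ncard = 0 := by
    intro y
    rw [hZ]
    rfl
  have hex : ∀ y : V, ∃ w : V, y ∈ Z → w ∈ D ∧ G.Adj y w := by
    intro y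
    by_cases hy : y ∈ Z
    · have h1 := (hZm y).1 hy
      rcases hdeg y ⟨h1.1, h1.2.1⟩ with h | h | ⟨⟨w, hw, hyw⟩, -⟩
      · rw [h1.2.2] at h
        omega
      · rw [h1.2.2] at h
        omega
      · exact ⟨w, fun _ => ⟨hw, hyw⟩⟩
    · exact ⟨y, fun h => absurd h hy⟩
  choose d hd using hex
  obtain ⟨R, hRd⟩ : ∃ R : Set (V × V), R = {p | p.2 ∈ Z ∧ p.1 = d p.2} := ⟨_, rfl⟩
  have hRm : ∀ u v, (u, v) ∈ R ↔ v ∈ Z ∧ u = d v := by
    intro u v
    rw [hRd]
    rfl
  obtain ⟨F, hF, hFin, hFdeg⟩ := hR R (by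
    rintro ⟨u, v⟩ huv
    obtain ⟨h1, h2⟩ := (hRm u v).1 huv
    have h3 := hd v h1
    refine ⟨?_, ((hZm v).1 h1).2.1, ?_⟩
    · change u ∈ D
      rw [h2]
      exact h3.1
    · change G.Adj u v
      rw [h2]
      exact h3.2.symm)
  let H : SimpleGraph V :=
    { Adj := fun u v => H₀.Adj u v ∨ F.Adj u v ∨ (v ∈ Z ∧ u = d v) ∨ (u ∈ Z ∧ v = d u)
      symm := ⟨by
        intro u v h
        rcases h with h | h | h | h
        · exact Or.inl h.symm
        · exact Or.inr (Or.inl h.symm)
        · exact Or.inr (Or.inr (Or.inr h))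
        · exact Or.inr (Or.inr (Or.inl h))⟩
      loopless := ⟨by
        intro u h
        rcases h with h | h | h | h
        · exact H₀.irrefl h
        · exact F.irrefl h
        · exact (hd u h.1).2.ne h.2
        · exact (hd u h.1).2.ne h.2⟩ }
  have hHa : ∀ u v, H.Adj u v ↔
      (H₀.Adj u v ∨ F.Adj u v ∨ (v ∈ Z ∧ u = d v) ∨ (u ∈ Z ∧ v = d u)) := fun u v => Iff.rfl
  refine ⟨H, ?_, ?_, ?_⟩
  · intro u v h
    rcases (hHa u v).1 h with h | h | ⟨h1, h2⟩ | ⟨h1, h2⟩
    · exact hH₀ h
    · exact hF h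
    · rw [h2]
      exact (hd v h1).2.symm
    · rw [h2]
      exact (hd u h1).2
  · intro u v h
    rcases (hHa u v).1 h with h | h | ⟨h1, h2⟩ | ⟨h1, h2⟩
    · exact ⟨(hin u v h).1.1, (hin u v h).2.1⟩
    · exact ⟨hDC (hFin u v h).1, hDC (hFin u v h).2⟩
    · rw [h2]
      exact ⟨hDC (hd v h1).1, ((hZm v).1 h1).1⟩
    · rw [h2]
      exact ⟨((hZm u).1 h1).1, hDC (hd u h1).1⟩
  · intro v hv
    by_cases hvD : v ∈ D
    · have e : H.neighborSet v = F.neighborSet v ∪ {w | (v, w) ∈ R} := by
        ext w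
        rw [SimpleGraph.mem_neighborSet, hHa, Set.mem_union, SimpleGraph.mem_neighborSet,
          Set.mem_ofPred_eq, hRm]
        constructor
        · rintro (h | h | h | h)
          · exact absurd hvD (hin v w h).1.2
          · exact Or.inl h
          · exact Or.inr h
          · exact absurd hvD ((hZm v).1 h.1).2.1
        · rintro (h | h)
          · exact Or.inr (Or.inl h)
          · exact Or.inr (Or.inr (Or.inl h))
      have hdis : Disjoint (F.neighborSet v) {w | (v, w) ∈ R} := by
        rw [Set.disjoint_left]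
        intro w h1 h2
        have h3 : (v, w) ∈ R := h2
        exact ((hZm w).1 ((hRm v w).1 h3).1).2.1 (hFin v w h1).2
      rw [e, Set.ncard_union_eq hdis (Set.toFinite _) (Set.toFinite _)]
      exact hFdeg v hvD
    · by_cases hvZ : v ∈ Z
      · left
        have h0 : H₀.neighborSet v = ∅ := by
          have := ((hZm v).1 hvZ).2.2
          rwa [Set.ncard_eq_zero (Set.toFinite _)] at this
        have e : H.neighborSet v = {d v} := by
          ext w
          rw [SimpleGraph.mem_neighborSet, hHa, Set.mem_singleton_iff]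
          constructor
          · rintro (h | h | h | h)
            · have : w ∈ H₀.neighborSet v := h
              rw [h0] at this
              exact absurd this (Set.notMem_empty w)
            · exact absurd (hFin v w h).1 hvD
            · exact absurd (h.2 ▸ (hd w h.1).1) hvD
            · exact h.2
          · intro h
            exact Or.inr (Or.inr (Or.inr ⟨hvZ, h⟩))
        rw [e, Set.ncard_singleton]
      · have e : H.neighborSet v = H₀.neighborSet v := by
          ext w
          rw [SimpleGraph.mem_neighborSet, hHa, SimpleGraph.mem_neighborSet]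
          constructor
          · rintro (h | h | h | h)
            · exact h
            · exact absurd (hFin v w h).1 hvD
            · exact absurd (h.2 ▸ (hd w h.1).1) hvD
            · exact absurd h.1 hvZ
          · exact Or.inl
        rw [e]
        rcases hdeg v ⟨hv, hvD⟩ with h | h | h
        · exact Or.inl h
        · exact Or.inr h
        · exact absurd ((hZm v).2 ⟨hv, hvD, h.2⟩) hvZ

end Pool.Agent.R229.FR
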