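import Pool.Agent.R229.FR.Stm3

set_option autoImplicit false

/-! Part U3 of project FR3 (Hall argument relative to `T`), helper293. -/

namespace Pool.Agent.R229.FR

open SimpleGraph Finset

/-- The count: `5 |𝒳| ≤ 5 |N| + 4`. -/
theorem U3_count (V : Type) [Fintype V] [DecidableEq V] (G : SimpleGraph V)
    (hreg : ∀ v, (G.neighborSet v).ncard = 5)
    (T A : Set V) (𝒦 : Finset (Set V)) (hB : Barrier G T A 𝒦)
    (Q : Set V → Prop) (hQ : ∀ K ∈ 𝒦, Q K → 5 ≤ cut G K)
    (hE : {p : V × V | (∃ K ∈ 𝒦, Q K ∧ p.1 ∈ K) ∧ p.2 ∉ T ∧ G.Adj p.1 p.2}.ncard ≤ 4)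
    (𝒳 : Finset (Set V)) (hX : ∀ K ∈ 𝒳, K ∈ 𝒦 ∧ Q K)
    (N : Finset V) (hN : ∀ K ∈ 𝒳, ∀ a ∈ A, (∃ k ∈ K, G.Adj a k) → a ∈ N) :
    𝒳.card ≤ N.card := by
  classical
  obtain ⟨-, hK, hdj⟩ := hB
  have hdisj : ∀ K ∈ 𝒳, ∀ L ∈ 𝒳, K ≠ L → Disjoint K L :=
    fun K h L h' hne => hdj K (hX K h).1 L (hX L h').1 hne
  let F : Set V → Finset (V × V) := fun K =>
    Finset.univ.filter (fun p : V × V => p.1 ∈ K ∧ p.2 ∉ K ∧ G.Adj p.1 p.2)
  have hF : ∀ K, cut G K = (F K).card := by
    intro K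
    unfold cut
    rw [← Set.ncard_coe_finset]
    congr 1
    ext p
    simp [F]
  let P : Finset (V × V) := Finset.univ.filter (fun p : V × V => p.2 ∈ N ∧ G.Adj p.1 p.2)
  let E : Finset (V × V) := Finset.univ.filter (fun p : V × V =>
    (∃ K ∈ 𝒦, Q K ∧ p.1 ∈ K) ∧ p.2 ∉ T ∧ G.Adj p.1 p.2)
  have hE' : E.card ≤ 4 := by
    rw [← Set.ncard_coe_finset]
    refine le_trans (le_of_eq ?_) hE
    congr 1
    ext p
    simp [E]
  have hFP : ∀ K ∈ 𝒳, F K ⊆ P ∪ E := by
    intro K hKX p hp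
    rw [Finset.mem_union]
    simp only [F, P, E, Finset.mem_filter, Finset.mem_univ, true_and] at hp ⊢
    by_cases hpT : p.2 ∈ T
    · left
      refine ⟨?_, hp.2.2⟩
      rcases (hK K (hX K hKX).1).2.2.2 p.1 hp.1 p.2 hpT hp.2.2 with h | h
      · exact absurd h hp.2.1
      · exact hN K hKX p.2 h ⟨p.1, hp.1, hp.2.2.symm⟩
    · right
      exact ⟨⟨K, (hX K hKX).1, (hX K hKX).2, hp.1⟩, hpT, hp.2.2⟩
  have hFd : ∀ K ∈ 𝒳, ∀ K' ∈ 𝒳, K ≠ K' → Disjoint (F K) (F K') := by
    intro K h K' h' hne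
    rw [Finset.disjoint_left]
    intro p hp hp'
    simp only [F, Finset.mem_filter, Finset.mem_univ, true_and] at hp hp'
    exact (Set.disjoint_left.mp (hdisj K h K' h' hne)) hp.1 hp'.1
  have hsum : ∑ K ∈ 𝒳, cut G K ≤ P.card + E.card := by
    calc ∑ K ∈ 𝒳, cut G K = ∑ K ∈ 𝒳, (F K).card := Finset.sum_congr rfl fun K _ => hF K
      _ = (𝒳.biUnion F).card := (Finset.card_biUnion hFd).symm
      _ ≤ (P ∪ E).card := Finset.card_le_card (Finset.biUnion_subset.mpr hFP)
      _ ≤ P.card + E.card := Finset.card_union_le _ _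
  have hP : P.card ≤ 5 * N.card := by
    apply Finset.card_le_mul_card_image_of_maps_to (f := Prod.snd)
    · intro p hp
      simp only [P, Finset.mem_filter, Finset.mem_univ, true_and] at hp
      exact hp.1
    · intro s hs
      have h2 : (P.filter (fun p => p.2 = s)) ⊆
          ((Set.toFinite (G.neighborSet s)).toFinset).image (fun v => (v, s)) := by
        intro p hp
        simp only [P, Finset.mem_filter, Finset.mem_univ, true_and] at hp
        rw [Finset.mem_image]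
        refine ⟨p.1, ?_, ?_⟩
        · rw [Set.Finite.mem_toFinset, SimpleGraph.mem_neighborSet, ← hp.2]
          exact hp.1.2.symm
        · rw [← hp.2]
      calc (P.filter (fun p => p.2 = s)).card ≤ _ := Finset.card_le_card h2
        _ ≤ ((Set.toFinite (G.neighborSet s)).toFinset).card := Finset.card_image_le
        _ = (G.neighborSet s).ncard :=
          (Set.ncard_eq_toFinset_card _ (Set.toFinite (G.neighborSet s))).symm
        _ ≤ 5 := (hreg s).le
  have h5 : ∑ K ∈ 𝒳, 5 ≤ ∑ K ∈ 𝒳, cut G K :=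
    Finset.sum_le_sum fun K hK => hQ K (hX K hK).1 (hX K hK).2
  rw [Finset.sum_const, smul_eq_mul] at h5
  omega

theorem u3 : StmtU3 := by
  intro V _ _ G hreg T A 𝒦 hB Q hQ hE
  classical
  let I := {K : Set V // K ∈ 𝒦 ∧ Q K}
  let t : I → Finset V := fun K => Finset.univ.filter (fun a => a ∈ A ∧ ∃ k ∈ K.1, G.Adj a k)
  have hall : ∀ s : Finset I, s.card ≤ (s.biUnion t).card := by
    intro s
    have h := U3_count V G hreg T A 𝒦 hB Q hQ hE (s.map (Function.Embedding.subtype _))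
      (by
        intro K hK
        rw [Finset.mem_map] at hK
        obtain ⟨x, -, rfl⟩ := hK
        exact x.2)
      (s.biUnion t)
      (by
        intro K hK a ha hk
        rw [Finset.mem_map] at hK
        obtain ⟨x, hx, rfl⟩ := hK
        rw [Finset.mem_biUnion]
        refine ⟨x, hx, ?_⟩
        simp only [t, Finset.mem_filter, Finset.mem_univ, true_and]
        exact ⟨ha, hk⟩)
    rwa [Finset.card_map] at h
  obtain ⟨f, hfi, hf⟩ := (Finset.all_card_le_biUnion_card_iff_exists_injective t).mp hall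
  refine ⟨fun K => if h : K ∈ 𝒦 ∧ Q K then f ⟨K, h⟩
    else Classical.arbitrary V, ?_, ?_⟩
  · intro K hK hF
    have h : K ∈ 𝒦 ∧ Q K := ⟨hK, hF⟩
    simp only [dif_pos h]
    have := hf ⟨K, h⟩
    simp only [t, Finset.mem_filter, Finset.mem_univ, true_and] at this
    exact this
  · intro K hK L hL hKL
    change K ∈ 𝒦 ∧ Q K at hK
    change L ∈ 𝒦 ∧ Q L at hL
    simp only [dif_pos hK, dif_pos hL] at hKL
    have := hfi hKL
    exact congrArg Subtype.val this

end Pool.Agent.R229.FR
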