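import Pool.Agent.R229.FR.Stm3

set_option autoImplicit false

/-! U5: assembling a subgraph with degrees 1, 4, and 0 only at `Y`, relative to a set `T`
(project FR3). -/

namespace Pool.Agent.R229.FR

namespace U5aux

/-- `T` carries a subgraph with the degrees wanted. -/
def Good {V : Type} (G : SimpleGraph V) (Y T : Set V) : Prop :=
  ∃ H : SimpleGraph V, H ≤ G ∧ (∀ u v, H.Adj u v → u ∈ T ∧ v ∈ T) ∧
    ∀ v ∈ T, (H.neighborSet v).ncard = 1 ∨ (H.neighborSet v).ncard = 4 ∨
      (v ∈ Y ∧ (H.neighborSet v).ncard = 0)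

theorem good_of_matchedOn {V : Type} (G : SimpleGraph V) (Y T : Set V) (f : V → V)
    (h : MatchedOn G T f) : Good G Y T := by
  refine ⟨⟨fun u v => u ∈ T ∧ v ∈ T ∧ f u = v ∧ G.Adj u v, ⟨?_⟩, ⟨?_⟩⟩, ?_, ?_, ?_⟩
  · rintro u v ⟨hu, hv, huv, hadj⟩
    refine ⟨hv, hu, ?_, hadj.symm⟩
    rw [← huv]
    exact (h u hu).2.2
  · rintro u ⟨_, _, _, hadj⟩
    exact G.irrefl hadj
  · intro u v huv
    exact huv.2.2.2
  · intro u v huv
    exact ⟨huv.1, huv.2.1⟩
  · intro v hv
    left
    rw [Set.ncard_eq_one]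
    refine ⟨f v, ?_⟩
    ext w
    constructor
    · intro hw
      exact (hw.2.2.1).symm
    · intro hw
      have hw' : w = f v := hw
      subst hw'
      exact ⟨hv, (h v hv).1, rfl, (h v hv).2.1⟩

theorem good_of_factorOn {V : Type} (G : SimpleGraph V) (Y T : Set V)
    (h : FactorOn G T) : Good G Y T := by
  obtain ⟨F, hF, hin, hdeg⟩ := h
  refine ⟨F, hF, hin, fun v hv => ?_⟩
  rcases hdeg v hv with h1 | h1
  · exact Or.inl h1
  · exact Or.inr (Or.inl h1)

theorem good_mono {V : Type} (G : SimpleGraph V) (Y T T' : Set V) (h : Good G Y T) (hTT' : T ⊆ T')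
    (hends : ∀ v ∈ T', v ∉ T → v ∈ Y) : Good G Y T' := by
  obtain ⟨H, hH, hin, hdeg⟩ := h
  refine ⟨H, hH, fun u v huv => ⟨hTT' (hin u v huv).1, hTT' (hin u v huv).2⟩, fun v hv => ?_⟩
  by_cases hvT : v ∈ T
  · exact hdeg v hvT
  · right
    right
    refine ⟨hends v hv hvT, ?_⟩
    have : H.neighborSet v = ∅ := by
      ext w
      constructor
      · intro hw
        exact absurd (hin v w hw).1 hvT
      · intro hw
        exact absurd hw (Set.notMem_empty w)
    rw [this]
    exact Set.ncard_empty V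

/-- Glueing good sets of a partition. -/
theorem glue {V : Type} (G : SimpleGraph V) (Y : Set V) (𝒯 : Set (Set V)) (T₀ : Set V)
    (hgood : ∀ T ∈ 𝒯, Good G Y T)
    (hsub : ∀ T ∈ 𝒯, T ⊆ T₀)
    (huniq : ∀ T ∈ 𝒯, ∀ T' ∈ 𝒯, ∀ v, v ∈ T → v ∈ T' → T = T')
    (hcov : ∀ v ∈ T₀, ∃ T ∈ 𝒯, v ∈ T) : Good G Y T₀ := by
  classical
  choose! H hH hin hdeg using hgood
  refine ⟨⟨fun u v => ∃ T ∈ 𝒯, (H T).Adj u v, ⟨?_⟩, ⟨?_⟩⟩, ?_, ?_, ?_⟩
  · rintro u v ⟨T, hT, h⟩
    exact ⟨T, hT, h.symm⟩
  · rintro u ⟨T, _, h⟩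
    exact (H T).irrefl h
  · rintro u v ⟨T, hT, h⟩
    exact hH T hT h
  · rintro u v ⟨T, hT, h⟩
    exact ⟨hsub T hT (hin T hT u v h).1, hsub T hT (hin T hT u v h).2⟩
  · intro v hv
    obtain ⟨T, hT, hvT⟩ := hcov v hv
    have hset : (SimpleGraph.neighborSet (⟨fun u v => ∃ T ∈ 𝒯, (H T).Adj u v, ⟨by
        rintro u v ⟨T, hT, h⟩
        exact ⟨T, hT, h.symm⟩⟩, ⟨by
        rintro u ⟨T, _, h⟩
        exact (H T).irrefl h⟩⟩ : SimpleGraph V) v) = (H T).neighborSet v := by
      ext w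
      constructor
      · rintro ⟨T', hT', h'⟩
        have := huniq T hT T' hT' v hvT (hin T' hT' v w h').1
        subst this
        exact h'
      · intro h'
        exact ⟨T, hT, h'⟩
    have hd := hdeg T hT v hvT
    rw [← hset] at hd
    exact hd

theorem good_union {V : Type} (G : SimpleGraph V) (Y T T' : Set V) (h : Good G Y T)
    (h' : Good G Y T') (hdisj : Disjoint T T') : Good G Y (T ∪ T') := by
  refine glue G Y {T, T'} (T ∪ T') ?_ ?_ ?_ ?_
  · rintro S (rfl | rfl)
    · exact h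
    · exact h'
  · rintro S (rfl | rfl)
    · exact Set.subset_union_left
    · exact Set.subset_union_right
  · rintro S (rfl | rfl) S' (rfl | rfl) v hv hv'
    · rfl
    · exact absurd hv' (Set.disjoint_left.mp hdisj hv)
    · exact absurd hv (Set.disjoint_left.mp hdisj hv')
    · rfl
  · rintro v (hv | hv)
    · exact ⟨T, Or.inl rfl, hv⟩
    · exact ⟨T', Or.inr rfl, hv⟩

theorem good_pair {V : Type} (G : SimpleGraph V) (Y : Set V) (a k : V) (h : G.Adj a k) :
    Good G Y {a, k} := by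
  classical
  have hne : a ≠ k := h.ne
  refine good_of_matchedOn G Y {a, k} (Equiv.swap a k) ?_
  rintro v (rfl | rfl)
  · refine ⟨?_, ?_, ?_⟩
    · rw [Equiv.swap_apply_left]
      exact Or.inr rfl
    · rw [Equiv.swap_apply_left]
      exact h
    · rw [Equiv.swap_apply_left, Equiv.swap_apply_right]
  · refine ⟨?_, ?_, ?_⟩
    · rw [Equiv.swap_apply_right]
      exact Or.inl rfl
    · rw [Equiv.swap_apply_right]
      exact h.symm
    · rw [Equiv.swap_apply_right, Equiv.swap_apply_left]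

end U5aux

open U5aux in
/-- U5: assembling. -/
theorem u5 : StmtU5 := by
  intro V _ G T₀ A Y 𝒦 hbar hcrit hrest ψ hψ hψinj hunm
  classical
  obtain ⟨hAT, hK, hdisj⟩ := hbar
  have hKA : ∀ K ∈ 𝒦, ∀ v ∈ K, v ∉ A := fun K hK' v hv hvA =>
    Set.disjoint_left.mp (hK K hK').2.1 hv hvA
  have hKuniq : ∀ K ∈ 𝒦, ∀ L ∈ 𝒦, ∀ v, v ∈ K → v ∈ L → K = L := by
    intro K hK' L hL v hv hv'
    by_contra hne
    exact Set.disjoint_left.mp (hdisj K hK' L hL hne) hv hv'
  -- the cells
  set R : Set V := {v | v ∈ T₀ ∧ v ∉ A ∧ ∀ K ∈ 𝒦, v ∉ K} with hR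
  let 𝒯 : Set (Set V) := {T | (∃ a ∈ A, T = insert a (ψ a)) ∨
    (T ∈ 𝒦 ∧ ∀ a ∈ A, ψ a ≠ T) ∨ T = R}
  have hmain : Good G Y T₀ := by
    refine glue G Y 𝒯 T₀ ?_ ?_ ?_ ?_
    · rintro T (⟨a, ha, rfl⟩ | ⟨hT, hTψ⟩ | rfl)
      · obtain ⟨hψa, k, hk, hadj⟩ := hψ a ha
        obtain ⟨f, hf⟩ := hcrit (ψ a) hψa k hk
        have h1 := good_pair G Y a k hadj
        have h2 := good_of_matchedOn G Y _ f hf
        have h3 : insert a (ψ a) = {a, k} ∪ (ψ a \ {k}) := by
          ext v
          constructor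
          · rintro (rfl | hv)
            · exact Or.inl (Or.inl rfl)
            · by_cases hvk : v = k
              · exact Or.inl (Or.inr hvk)
              · exact Or.inr ⟨hv, hvk⟩
          · rintro ((rfl | hv) | hv)
            · exact Or.inl rfl
            · have : v = k := hv
              subst this
              exact Or.inr hk
            · exact Or.inr hv.1
        rw [h3]
        refine good_union G Y _ _ h1 h2 ?_
        rw [Set.disjoint_left]
        rintro v (rfl | hv) hv'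
        · exact hKA _ hψa v hv'.1 ha
        · exact hv'.2 hv
      · rcases hunm T hT hTψ with ⟨x, hx, hxe⟩ | hfac
        · obtain ⟨f, hf⟩ := hcrit T hT x hx
          refine good_mono G Y (T \ {x}) T (good_of_matchedOn G Y _ f hf) Set.sdiff_subset ?_
          intro v hv hv'
          have : v = x := by
            by_contra hne
            exact hv' ⟨hv, hne⟩
          rw [this]
          exact hxe
        · exact good_of_factorOn G Y T hfac
      · obtain ⟨f, hf⟩ := hrest
        exact good_of_matchedOn G Y _ f hf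
    · rintro T (⟨a, ha, rfl⟩ | ⟨hT, hTψ⟩ | rfl)
      · rintro v (rfl | hv)
        · exact hAT ha
        · exact (hK _ (hψ a ha).1).1 hv
      · exact (hK T hT).1
      · exact fun v hv => hv.1
    · rintro T (⟨a, ha, rfl⟩ | ⟨hT, hTψ⟩ | rfl) T' (⟨a', ha', rfl⟩ | ⟨hT', hTψ'⟩ | rfl) v hv hv'
      · have haa : a = a' := by
          rcases hv with rfl | hv
          · rcases hv' with rfl | hv'
            · rfl
            · exact absurd ha (hKA _ (hψ a' ha').1 v hv')
          · rcases hv' with rfl | hv'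
            · exact absurd ha' (hKA _ (hψ a ha).1 v hv)
            · exact hψinj ha ha' (hKuniq _ (hψ a ha).1 _ (hψ a' ha').1 v hv hv')
        subst haa
        rfl
      · exfalso
        rcases hv with rfl | hv
        · exact hKA _ hT' v hv' ha
        · exact hTψ' a ha (hKuniq _ (hψ a ha).1 _ hT' v hv hv')
      · exfalso
        rcases hv with rfl | hv
        · exact hv'.2.1 ha
        · exact hv'.2.2 _ (hψ a ha).1 hv
      · exfalso
        rcases hv' with rfl | hv'
        · exact hKA _ hT v hv ha'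
        · exact hTψ a' ha' (hKuniq _ (hψ a' ha').1 _ hT v hv' hv)
      · exact hKuniq T hT T' hT' v hv hv'
      · exact absurd hv (hv'.2.2 T hT)
      · exfalso
        rcases hv' with rfl | hv'
        · exact hv.2.1 ha'
        · exact hv.2.2 _ (hψ a' ha').1 hv'
      · exact absurd hv' (hv.2.2 T' hT')
      · rfl
    · intro v hvT
      by_cases hvA : v ∈ A
      · exact ⟨insert v (ψ v), Or.inl ⟨v, hvA, rfl⟩, Or.inl rfl⟩
      · by_cases hvK : ∃ K ∈ 𝒦, v ∈ K
        · obtain ⟨K, hK', hv⟩ := hvK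
          by_cases hm : ∃ a ∈ A, ψ a = K
          · obtain ⟨a, ha, rfl⟩ := hm
            exact ⟨insert a (ψ a), Or.inl ⟨a, ha, rfl⟩, Or.inr hv⟩
          · push Not at hm
            exact ⟨K, Or.inr (Or.inl ⟨hK', hm⟩), hv⟩
        · push Not at hvK
          exact ⟨R, Or.inr (Or.inr rfl), ⟨hvT, hvA, hvK⟩⟩
  exact hmain

end Pool.Agent.R229.FR
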