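import Pool.Agent.R229.FR.Stm3

set_option autoImplicit false

/-! U7: critical sets. -/

namespace Pool.Agent.R229.FR

open Finset

theorem u7 (h1 : StmtT1) : StmtU7 := by
  classical
  intro V _ G hdeg D hDodd hDcut hsub x hx
  rcases h1 V G (D \ {x}) with h | ⟨A, 𝒦, hB, hcard, hpar⟩
  · exact h
  exfalso
  obtain ⟨hAT, hK, hdisj⟩ := hB
  have hT : (D \ {x}).ncard + 1 = D.ncard := Set.ncard_diff_singleton_add_one hx (Set.toFinite _)
  have hK2 : A.ncard + 2 ≤ 𝒦.card := by
    rcases hDodd with ⟨a, ha⟩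
    rcases hpar with ⟨b, hb⟩
    omega
  let PK : Set V → Finset (V × V) := fun K =>
    univ.filter (fun p : V × V => p.1 ∈ K ∧ p.2 ∉ K ∧ G.Adj p.1 p.2)
  have hPK : ∀ K, cut G K = #(PK K) := by
    intro K
    unfold cut
    rw [← Set.ncard_coe_finset]
    congr 1
    ext p
    simp [PK]
  have h5 : ∀ K ∈ 𝒦, 5 ≤ #(PK K) := by
    intro K hKK
    rw [← hPK]
    obtain ⟨k1, k2, k3, k4⟩ := hK K hKK
    apply hsub K _ k3
    rw [Set.ssubset_iff_of_subset (k1.trans Set.diff_subset)]
    exact ⟨x, hx, fun hxK => (k1 hxK).2 rfl⟩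
  have hsum : 5 * #𝒦 ≤ #(𝒦.biUnion PK) := by
    rw [card_biUnion]
    · calc 5 * #𝒦 = ∑ _K ∈ 𝒦, 5 := by rw [sum_const, smul_eq_mul, mul_comm]
        _ ≤ ∑ K ∈ 𝒦, #(PK K) := sum_le_sum h5
    · intro K hKK L hLL hne
      show Disjoint (PK K) (PK L)
      rw [Finset.disjoint_left]
      intro p hp hq
      simp only [PK, mem_filter, mem_univ, true_and] at hp hq
      exact Set.disjoint_left.1 (hdisj K hKK L hLL hne) hp.1 hq.1
  have hdeg' : ∀ v, #((univ : Finset V).filter (fun u => G.Adj v u)) = 5 := by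
    intro v
    rw [← hdeg v, ← Set.ncard_coe_finset]
    congr 1
    ext u
    simp
  let AX : Finset V := insert x A.toFinset
  have hAX : #AX ≤ A.ncard + 1 := by
    refine (card_insert_le _ _).trans ?_
    rw [Set.ncard_eq_toFinset_card']
  let Q1 : Finset (V × V) := AX.biUnion (fun a =>
    ((univ : Finset V).filter (fun u => G.Adj a u)).image (fun u => (u, a)))
  have hQ1 : #Q1 ≤ 5 * (A.ncard + 1) := by
    refine card_biUnion_le.trans ?_
    calc ∑ a ∈ AX, #(((univ : Finset V).filter (fun u => G.Adj a u)).image (fun u => (u, a)))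
        ≤ ∑ _a ∈ AX, 5 := by
          apply sum_le_sum
          intro a _
          exact card_image_le.trans (hdeg' a).le
      _ = 5 * #AX := by rw [sum_const, smul_eq_mul, mul_comm]
      _ ≤ 5 * (A.ncard + 1) := Nat.mul_le_mul_left _ hAX
  have hincl : 𝒦.biUnion PK ⊆ Q1 ∪ PK D := by
    intro p hp
    rw [mem_biUnion] at hp
    obtain ⟨K, hKK, hp⟩ := hp
    simp only [PK, mem_filter, mem_univ, true_and] at hp
    obtain ⟨k1, k2, k3, k4⟩ := hK K hKK
    rw [mem_union]
    by_cases hpx : p.2 ∈ AX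
    · left
      rw [mem_biUnion]
      refine ⟨p.2, hpx, ?_⟩
      rw [mem_image]
      exact ⟨p.1, mem_filter.2 ⟨mem_univ _, hp.2.2.symm⟩, rfl⟩
    · right
      have hpx' : p.2 ≠ x ∧ p.2 ∉ A := by
        constructor
        · intro h
          exact hpx (by rw [h]; exact mem_insert_self _ _)
        · intro h
          exact hpx (mem_insert_of_mem (Set.mem_toFinset.2 h))
      simp only [PK, mem_filter, mem_univ, true_and]
      refine ⟨(k1 hp.1).1, ?_, hp.2.2⟩
      intro hD
      rcases k4 p.1 hp.1 p.2 ⟨hD, hpx'.1⟩ hp.2.2 with h | h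
      · exact hp.2.1 h
      · exact hpx'.2 h
  have hfin := (card_le_card hincl).trans (card_union_le _ _)
  rw [← hPK D, hDcut] at hfin
  omega

end Pool.Agent.R229.FR
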