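import Pool.Agent.R229.FR.Stm3

set_option autoImplicit false

namespace Pool.Agent.R229.FR

namespace U8aux

variable {V : Type} [Fintype V]

/-- the outgoing edges -/
def SS (G : SimpleGraph V) (D : Set V) : Set (V × V) :=
  {p : V × V | p.1 ∈ D ∧ p.2 ∉ D ∧ G.Adj p.1 p.2}

/-- the pattern `R` is realized -/
def Real (G : SimpleGraph V) (D : Set V) (R : Set (V × V)) : Prop :=
  ∃ F : SimpleGraph V, F ≤ G ∧ (∀ u v, F.Adj u v → u ∈ D ∧ v ∈ D) ∧
    ∀ v ∈ D, (F.neighborSet v).ncard + {w | (v, w) ∈ R}.ncard = 1 ∨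
      (F.neighborSet v).ncard + {w | (v, w) ∈ R}.ncard = 4

theorem comp (G : SimpleGraph V) (h5 : ∀ v, (G.neighborSet v).ncard = 5) (D : Set V)
    (R : Set (V × V)) (hR : R ⊆ SS G D) (h : Real G D (SS G D \ R)) : Real G D R := by
  obtain ⟨F, hFG, hFD, hF⟩ := h
  let F' : SimpleGraph V :=
    { Adj := fun u v => G.Adj u v ∧ u ∈ D ∧ v ∈ D ∧ ¬ F.Adj u v
      symm := ⟨fun u v h => ⟨h.1.symm, h.2.2.1, h.2.1, fun h' => h.2.2.2 h'.symm⟩⟩
      loopless := ⟨fun u h => G.irrefl h.1⟩ }
  refine ⟨F', fun u v h => h.1, fun u v h => ⟨h.2.1, h.2.2.1⟩, ?_⟩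
  intro v hv
  have hA : (F.neighborSet v ∪ F'.neighborSet v) ∪
      ({w | (v, w) ∈ R} ∪ {w | (v, w) ∈ SS G D \ R}) = G.neighborSet v := by
    ext w
    constructor
    · rintro ((h | h) | (h | h))
      · exact hFG h
      · exact h.1
      · exact (hR h).2.2
      · exact h.1.2.2
    · intro h
      by_cases hw : w ∈ D
      · left
        by_cases hf : F.Adj v w
        · exact Or.inl hf
        · exact Or.inr ⟨h, hv, hw, hf⟩
      · right
        by_cases hr : (v, w) ∈ R
        · exact Or.inl hr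
        · exact Or.inr ⟨⟨hv, hw, h⟩, hr⟩
  have d1 : Disjoint (F.neighborSet v) (F'.neighborSet v) := by
    rw [Set.disjoint_left]
    intro w h1 h2
    exact h2.2.2.2 h1
  have d2 : Disjoint {w | (v, w) ∈ R} {w | (v, w) ∈ SS G D \ R} := by
    rw [Set.disjoint_left]
    intro w h1 h2
    exact h2.2 h1
  have d3 : Disjoint (F.neighborSet v ∪ F'.neighborSet v)
      ({w | (v, w) ∈ R} ∪ {w | (v, w) ∈ SS G D \ R}) := by
    rw [Set.disjoint_left]
    intro w h1 h2
    have hw : w ∈ D := by
      rcases h1 with h1 | h1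
      · exact (hFD _ _ h1).2
      · exact h1.2.2.1
    rcases h2 with h2 | h2
    · exact (hR h2).2.1 hw
    · exact h2.1.2.1 hw
  have e1 := Set.ncard_union_eq d3 (Set.toFinite _) (Set.toFinite _)
  rw [hA, h5, Set.ncard_union_eq d1 (Set.toFinite _) (Set.toFinite _),
    Set.ncard_union_eq d2 (Set.toFinite _) (Set.toFinite _)] at e1
  rcases hF v hv with h | h
  · right; omega
  · left; omega

theorem small (G : SimpleGraph V) (D : Set V) (hfac : FactorOn G D)
    (hcr : ∀ x ∈ D, ∃ f : V → V, MatchedOn G (D \ {x}) f)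
    (R : Set (V × V)) (hR : R ⊆ SS G D) (h1 : R.ncard ≤ 1) : Real G D R := by
  rcases Nat.lt_or_ge R.ncard 1 with h0 | h0
  · have hRe : R = ∅ := (Set.ncard_eq_zero (Set.toFinite _)).1 (by omega)
    obtain ⟨F, hFG, hFD, hF⟩ := hfac
    refine ⟨F, hFG, hFD, fun v hv => ?_⟩
    have e : {w | (v, w) ∈ R}.ncard = 0 := by
      rw [hRe]
      simp
    rw [e, add_zero]
    exact hF v hv
  · obtain ⟨⟨x, y⟩, hxy⟩ := Set.ncard_eq_one.1 (le_antisymm h1 h0)
    have hx : x ∈ D := by
      have : (x, y) ∈ R := by rw [hxy]; exact Set.mem_singleton _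
      exact (hR this).1
    obtain ⟨f, hf⟩ := hcr x hx
    let F : SimpleGraph V :=
      { Adj := fun u v => u ∈ D \ {x} ∧ v ∈ D \ {x} ∧ f u = v
        symm := ⟨fun u v h => ⟨h.2.1, h.1, by rw [← h.2.2]; exact (hf u h.1).2.2⟩⟩
        loopless := ⟨fun u h => by
          have h2 := (hf u h.1).2.1
          rw [h.2.2] at h2
          exact G.irrefl h2⟩ }
    refine ⟨F, ?_, fun u v h => ⟨h.1.1, h.2.1.1⟩, ?_⟩
    · intro u v h
      have h2 := (hf u h.1).2.1
      rw [h.2.2] at h2
      exact h2
    · intro v hv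
      left
      by_cases hvx : v = x
      · subst hvx
        have e1 : F.neighborSet v = ∅ := by
          apply Set.eq_empty_of_forall_notMem
          intro w h
          exact h.1.2 rfl
        have e2 : {w | (v, w) ∈ R} = {y} := by
          ext w
          constructor
          · intro h
            have h3 : (v, w) ∈ R := h
            rw [hxy] at h3
            exact (Prod.ext_iff.1 h3).2
          · intro h
            have h3 : w = y := h
            show (v, w) ∈ R
            rw [hxy, h3]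
            exact Set.mem_singleton _
        rw [e1, e2, Set.ncard_empty, Set.ncard_singleton]
      · have hv' : v ∈ D \ {x} := ⟨hv, hvx⟩
        have e1 : F.neighborSet v = {f v} := by
          ext w
          constructor
          · intro h
            exact h.2.2.symm
          · intro h
            have h3 : w = f v := h
            exact ⟨hv', by rw [h3]; exact (hf v hv').1, h3.symm⟩
        have e2 : {w | (v, w) ∈ R} = ∅ := by
          apply Set.eq_empty_of_forall_notMem
          intro w h
          have h3 : (v, w) ∈ R := h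
          rw [hxy] at h3
          exact hvx (Prod.ext_iff.1 h3).1
        rw [e1, e2, Set.ncard_empty, Set.ncard_singleton]

end U8aux

open U8aux in
theorem u8 : StmtU8 := by
  intro V _ G h5 D hcut hfac hcr R hR
  have hR' : R ⊆ SS G D := hR
  have hc : (SS G D).ncard = 3 := hcut
  have h1 := Set.ncard_sdiff_add_ncard_of_subset hR' (Set.toFinite _)
  rw [hc] at h1
  rcases Nat.lt_or_ge 1 R.ncard with h2 | h2
  · exact comp G h5 D R hR' (small G D hfac hcr (SS G D \ R) Set.sdiff_subset (by omega))
  · exact small G D hfac hcr R hR' h2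

end Pool.Agent.R229.FR
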