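import Pool.Agent.R229.FR.Main3
import Pool.Agent.R229.FR.Core
import Pool.Agent.R229.FR.U2
import Pool.Agent.R229.FR.U3
import Pool.Agent.R229.FR.U5
import Pool.Agent.R229.FR.U7
import Pool.Agent.R229.FR.U8
import Pool.Agent.R229.FR.U10

set_option autoImplicit false

namespace Pool.Agent.R229.FR

/-- odd, three outgoing edges, no factor -/
def BadSet {V : Type} (G : SimpleGraph V) (C : Set V) : Prop :=
  Odd C.ncard ∧ cut G C = 3 ∧ ¬ FactorOn G C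

theorem exists_minBad {V : Type} [Fintype V] (G : SimpleGraph V) :
    ∀ (n : ℕ) (C : Set V), C.ncard ≤ n → BadSet G C → ∃ D, D ⊆ C ∧ BadSet G D ∧ ∀ E, E ⊂ D → ¬ BadSet G E := by
  intro n
  induction n with
  | zero =>
    intro C hC hB
    have h := hB.1
    have h0 : C.ncard = 0 := Nat.le_zero.mp hC
    rw [h0] at h
    exact absurd h (by decide)
  | succ n ih =>
    intro C hC hB
    by_cases h : ∃ E, E ⊂ C ∧ BadSet G E
    · obtain ⟨E, hE, hEB⟩ := h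
      have hlt : E.ncard < C.ncard := Set.ncard_lt_ncard hE (Set.toFinite _)
      obtain ⟨D, hD, hDB, hmin⟩ := ih E (by omega) hEB
      exact ⟨D, hD.trans hE.1, hDB, hmin⟩
    · push Not at h
      exact ⟨C, le_refl _, hB, h⟩

theorem minBad_five {V : Type} [Fintype V] (G : SimpleGraph V)
    (h5 : ∀ v, (G.neighborSet v).ncard = 5) (C : Set V) (hC : BadSet G C)
    (hmin : ∀ E, E ⊂ C → ¬ BadSet G E) : ∀ D, D ⊂ C → Odd D.ncard → 5 ≤ cut G D := by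
  classical
  have hA1 := a1 V G h5
  have hcutC : {p : V × V | p.1 ∈ C ∧ p.2 ∉ C ∧ G.Adj p.1 p.2}.ncard = 3 := hC.2.1
  -- step (i)
  have hQ : ∀ K, K ⊂ C → Odd K.ncard → Disjoint K (endsIn G C) → ¬ FactorOn G K →
      5 ≤ cut G K := by
    intro K hK hodd hdis hnf
    have hc := hA1 K hodd
    have h1 : cut G K ≠ 1 := by
      intro h1
      obtain ⟨D, hDK, hD⟩ := a3 V G K hodd h1
      obtain ⟨a, b, ha, hb, hab, _⟩ := hD.out
      exact Set.disjoint_left.mp hdis (hDK ha) ⟨D, hDK.trans hK.1, hD, ha, b, hb, hab⟩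
    have h3 : cut G K ≠ 3 := fun h3 => hmin K hK ⟨hodd, h3, hnf⟩
    obtain ⟨m, hm⟩ := hc
    omega
  have hbC : {p : V × V | p.1 ∈ C ∧ p.1 ∉ endsIn G C ∧ p.2 ∉ C ∧ G.Adj p.1 p.2}.ncard ≤ 4 := by
    have : {p : V × V | p.1 ∈ C ∧ p.1 ∉ endsIn G C ∧ p.2 ∉ C ∧ G.Adj p.1 p.2} ⊆
        {p : V × V | p.1 ∈ C ∧ p.2 ∉ C ∧ G.Adj p.1 p.2} := fun p hp => ⟨hp.1, hp.2.2.1, hp.2.2.2⟩
    have := Set.ncard_le_ncard this (Set.toFinite _)
    omega
  have hempty : ∀ D, D ⊆ C → ¬ MinOne G D := by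
    intro D hDC hD
    obtain ⟨a, b, ha, hb, hab, _⟩ := hD.out
    have haE : a ∈ endsIn G C := ⟨D, hDC, hD, ha, b, hb, hab⟩
    rcases core t4 (u2 t1) u3 u5 G h5 C (endsIn G C) hQ hbC with ⟨H₀, hH₀, hin, hdeg⟩ | ⟨_, hcrit⟩
    · exact hC.2.2 (u6 G h5 (a2 V G h5) C H₀ hH₀ hin hdeg)
    · obtain ⟨f, hf⟩ := hcrit a (hDC ha)
      let H₀ : SimpleGraph V :=
        { Adj := fun u v => u ∈ C \ {a} ∧ v ∈ C \ {a} ∧ f u = v
          symm := ⟨by
            rintro u v ⟨hu, hv, h⟩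
            refine ⟨hv, hu, ?_⟩
            rw [← h]; exact (hf u hu).2.2⟩
          loopless := ⟨by
            rintro u ⟨hu, _, h⟩
            have := (hf u hu).2.1
            rw [h] at this
            exact G.irrefl this⟩ }
      refine hC.2.2 (u6 G h5 (a2 V G h5) C H₀ ?_ ?_ ?_)
      · rintro u v ⟨hu, hv, h⟩
        have := (hf u hu).2.1
        rw [h] at this
        exact this
      · rintro u v ⟨hu, hv, h⟩
        exact ⟨hu.1, hv.1⟩
      · intro v hv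
        by_cases hva : v = a
        · subst hva
          right; right
          refine ⟨haE, ?_⟩
          have : H₀.neighborSet v = ∅ := by
            ext w
            simp only [SimpleGraph.mem_neighborSet, Set.mem_empty_iff_false, iff_false]
            rintro ⟨hv', _, _⟩
            exact hv'.2 rfl
          rw [this, Set.ncard_empty]
        · left
          have hvm : v ∈ C \ {a} := ⟨hv, hva⟩
          have : H₀.neighborSet v = {f v} := by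
            ext w
            simp only [SimpleGraph.mem_neighborSet, Set.mem_singleton_iff]
            constructor
            · rintro ⟨_, _, h⟩
              exact h.symm
            · rintro rfl
              exact ⟨hvm, (hf v hvm).1, rfl⟩
          rw [this, Set.ncard_singleton]
  have hne1 : ∀ D, D ⊆ C → Odd D.ncard → cut G D ≠ 1 := by
    intro D hDC hodd h1
    obtain ⟨E, hE, hEM⟩ := a3 V G D hodd h1
    exact hempty E (hE.trans hDC) hEM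
  -- step (ii)
  intro D₀ hD₀ hodd₀
  by_contra hlt
  have h30 : cut G D₀ = 3 := by
    obtain ⟨m, hm⟩ := hA1 D₀ hodd₀
    have := hne1 D₀ hD₀.1 hodd₀
    omega
  -- minimal such subset
  obtain ⟨D, hDD₀, hodd, h3, hDmin⟩ : ∃ D, D ⊆ D₀ ∧ Odd D.ncard ∧ cut G D = 3 ∧
      ∀ E, E ⊂ D → Odd E.ncard → cut G E ≠ 3 := by
    have : ∀ (n : ℕ) (D₁ : Set V), D₁.ncard ≤ n → Odd D₁.ncard → cut G D₁ = 3 →
        ∃ D, D ⊆ D₁ ∧ Odd D.ncard ∧ cut G D = 3 ∧ ∀ E, E ⊂ D → Odd E.ncard → cut G E ≠ 3 := by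
      intro n
      induction n with
      | zero =>
        intro D₁ h h' _
        have h0 : D₁.ncard = 0 := Nat.le_zero.mp h
        rw [h0] at h'
        exact absurd h' (by decide)
      | succ n ih =>
        intro D₁ h h' h''
        by_cases hh : ∃ E, E ⊂ D₁ ∧ Odd E.ncard ∧ cut G E = 3
        · obtain ⟨E, hE, hEo, hE3⟩ := hh
          have hlt : E.ncard < D₁.ncard := Set.ncard_lt_ncard hE (Set.toFinite _)
          obtain ⟨D, hD, hD1, hD2, hD3⟩ := ih E (by omega) hEo hE3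
          exact ⟨D, hD.trans hE.1, hD1, hD2, hD3⟩
        · push Not at hh
          exact ⟨D₁, le_refl _, h', h'', hh⟩
    exact this D₀.ncard D₀ le_rfl hodd₀ h30
  have hDC : D ⊂ C := lt_of_le_of_lt hDD₀ hD₀
  have hDfac : FactorOn G D := by
    by_contra hn
    exact hmin D hDC ⟨hodd, h3, hn⟩
  have hD5 : ∀ E, E ⊂ D → Odd E.ncard → 5 ≤ cut G E := by
    intro E hE hEo
    obtain ⟨m, hm⟩ := hA1 E hEo
    have h1 := hne1 E (hE.1.trans hDC.1) hEo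
    have h2 := hDmin E hE hEo
    omega
  have hcritD := u7 t1 V G h5 D hodd h3 hD5
  have hpat := u8 V G h5 D h3 hDfac hcritD
  let Y : Set V := {v | ∃ w ∈ D, G.Adj v w}
  have hQ2 : ∀ K, K ⊂ C \ D → Odd K.ncard → Disjoint K Y → ¬ FactorOn G K → 5 ≤ cut G K := by
    intro K hK hKo _ hnf
    have hKC : K ⊂ C := lt_of_lt_of_le hK Set.diff_subset
    obtain ⟨m, hm⟩ := hA1 K hKo
    have h1 := hne1 K hKC.1 hKo
    have h2 : cut G K ≠ 3 := fun h => hmin K hKC ⟨hKo, h, hnf⟩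
    omega
  have hb2 : {p : V × V | p.1 ∈ C \ D ∧ p.1 ∉ Y ∧ p.2 ∉ C \ D ∧ G.Adj p.1 p.2}.ncard ≤ 4 := by
    have : {p : V × V | p.1 ∈ C \ D ∧ p.1 ∉ Y ∧ p.2 ∉ C \ D ∧ G.Adj p.1 p.2} ⊆
        {p : V × V | p.1 ∈ C ∧ p.2 ∉ C ∧ G.Adj p.1 p.2} := by
      rintro p ⟨h1, h2, h3, h4⟩
      refine ⟨h1.1, ?_, h4⟩
      intro hpC
      by_cases hpD : p.2 ∈ D
      · exact h2 ⟨p.2, hpD, h4⟩
      · exact h3 ⟨hpC, hpD⟩
    have := Set.ncard_le_ncard this (Set.toFinite _)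
    omega
  rcases core t4 (u2 t1) u3 u5 G h5 (C \ D) Y hQ2 hb2 with ⟨H₀, hH₀, hin, hdeg⟩ | ⟨hodd2, _⟩
  · exact hC.2.2 (u10 V G C D hDC.1 hpat H₀ hH₀ hin hdeg)
  · have h1 : (C \ D).ncard = C.ncard - D.ncard := Set.ncard_sdiff hDC.1 (Set.toFinite _)
    have h2 : D.ncard ≤ C.ncard := Set.ncard_le_ncard hDC.1 (Set.toFinite _)
    obtain ⟨a, ha⟩ := hC.1
    obtain ⟨b, hb⟩ := hodd
    obtain ⟨c, hc⟩ := hodd2
    omega

theorem main5 {V : Type} [Fintype V] (G : SimpleGraph V) (h5 : ∀ v, (G.neighborSet v).ncard = 5)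
    (h3 : ∀ C₁ C₂ C₃ : Set V, Disjoint C₁ C₂ → Disjoint C₁ C₃ → Disjoint C₂ C₃ →
      (∀ C ∈ ({C₁, C₂, C₃} : Set (Set V)), BadSet G C ∧
        ∀ D, D ⊂ C → Odd D.ncard → 5 ≤ cut G D) → False) :
    ∃ H ≤ G, ∀ v, (H.neighborSet v).ncard = 1 ∨ (H.neighborSet v).ncard = 4 := by
  apply main3 G h5
  intro C₁ C₂ C₃ o1 o2 o3 d12 d13 d23 c1 c2 c3 f1 f2 f3
  obtain ⟨D₁, hs1, hb1, hm1⟩ := exists_minBad G _ C₁ le_rfl ⟨o1, c1, f1⟩
  obtain ⟨D₂, hs2, hb2, hm2⟩ := exists_minBad G _ C₂ le_rfl ⟨o2, c2, f2⟩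
  obtain ⟨D₃, hs3, hb3, hm3⟩ := exists_minBad G _ C₃ le_rfl ⟨o3, c3, f3⟩
  refine h3 D₁ D₂ D₃ (d12.mono hs1 hs2) (d13.mono hs1 hs3) (d23.mono hs2 hs3) ?_
  intro C hC
  rcases hC with rfl | rfl | rfl
  · exact ⟨hb1, minBad_five G h5 _ hb1 hm1⟩
  · exact ⟨hb2, minBad_five G h5 _ hb2 hm2⟩
  · exact ⟨hb3, minBad_five G h5 _ hb3 hm3⟩

end Pool.Agent.R229.FR
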